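import Pool.Agent.Q63.Win.Core

/-!
Lattice sums and the Cauchy-Schwarz inequality.
-/

open Set Filter Topology
open scoped ENNReal

namespace Pool.Agent.Q63.Win

open H459R3.NS

theorem rpow_step {e : ℝ} (he : 0 < e) (R : ℕ) :
    min e 1 * ((R : ℝ) + 1) ^ (e - 1) ≤ ((R : ℝ) + 1) ^ e - (R : ℝ) ^ e := by
  have hR : (0 : ℝ) ≤ R := Nat.cast_nonneg R
  have hR1 : (0 : ℝ) < (R : ℝ) + 1 := by positivity
  have e1 : ((R : ℝ) + 1) ^ e = ((R : ℝ) + 1) ^ (e - 1) * ((R : ℝ) + 1) := by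
    rw [← Real.rpow_add_one hR1.ne']
    congr 1
    ring
  rcases le_or_gt 1 e with h | h
  · rw [min_eq_right h, one_mul]
    have h1 : (R : ℝ) ^ e ≤ ((R : ℝ) + 1) ^ (e - 1) * R := by
      rcases Nat.eq_zero_or_pos R with h0 | h0
      · subst h0
        simp only [Nat.cast_zero]
        rw [Real.zero_rpow (by linarith)]
        simp
      · have hRp : (0 : ℝ) < R := by exact_mod_cast h0
        have e2 : (R : ℝ) ^ e = (R : ℝ) ^ (e - 1) * R := by
          rw [← Real.rpow_add_one hRp.ne']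
          congr 1
          ring
        rw [e2]
        refine mul_le_mul_of_nonneg_right ?_ hR
        exact Real.rpow_le_rpow hR (by linarith) (by linarith)
    rw [e1]
    linarith
  · rw [min_eq_left h.le]
    have h1 : (R : ℝ) ^ e ≤ ((R : ℝ) + 1) ^ e * (1 - e / ((R : ℝ) + 1)) := by
      have h2 : (R : ℝ) = ((R : ℝ) + 1) * (1 + -(1 / ((R : ℝ) + 1))) := by
        field_simp
        ring
      have h4 : 1 / ((R : ℝ) + 1) ≤ 1 := by
        rw [div_le_one hR1]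
        linarith
      have h3 : (1 + -(1 / ((R : ℝ) + 1))) ^ e ≤ 1 + e * -(1 / ((R : ℝ) + 1)) :=
        rpow_one_add_le_one_add_mul_self (by linarith) he.le h.le
      calc (R : ℝ) ^ e = (((R : ℝ) + 1) * (1 + -(1 / ((R : ℝ) + 1)))) ^ e := by rw [← h2]
        _ = ((R : ℝ) + 1) ^ e * (1 + -(1 / ((R : ℝ) + 1))) ^ e :=
            Real.mul_rpow hR1.le (by linarith)
        _ ≤ ((R : ℝ) + 1) ^ e * (1 + e * -(1 / ((R : ℝ) + 1))) := by gcongr
        _ = _ := by ring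
    have h5 : ((R : ℝ) + 1) ^ e * (1 - e / ((R : ℝ) + 1))
        = ((R : ℝ) + 1) ^ e - e * ((R : ℝ) + 1) ^ (e - 1) := by
      rw [e1]
      field_simp
    linarith

theorem box_mono {R R' : ℕ} (h : R ≤ R') : box R ⊆ box R' := fun l hl => by
  rw [mem_box] at hl ⊢
  omega

theorem zero_mem_box (R : ℕ) : (0 : K3) ∈ box R := by
  rw [mem_box, N_eq_zero.2 rfl]
  omega

/-- Lattice sums. -/
theorem lat {β : ℝ} (hβ : -3 < β) (R : ℕ) :
    ∑ l ∈ (box R).erase 0, (N l : ℝ) ^ β ≤ 26 / min (β + 3) 1 * (R : ℝ) ^ (β + 3) := by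
  have he : 0 < β + 3 := by linarith
  have hm : 0 < min (β + 3) 1 := lt_min he one_pos
  induction R with
  | zero =>
    have : (box 0).erase 0 = ∅ := by
      ext l
      simp only [Finset.mem_erase, mem_box, Finset.notMem_empty, iff_false]
      rintro ⟨h1, h2⟩
      exact h1 (N_eq_zero.1 (by omega))
    rw [this, Finset.sum_empty]
    simp only [Nat.cast_zero]
    rw [Real.zero_rpow he.ne']
    simp
  | succ R ih =>
    have hsub : (box R).erase 0 ⊆ (box (R + 1)).erase 0 :=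
      Finset.erase_subset_erase 0 (box_mono (by omega))
    have h1 := Finset.sum_sdiff (f := fun l : K3 => (N l : ℝ) ^ β) hsub
    rw [← h1]
    have h2 : ∑ l ∈ (box (R + 1)).erase 0 \ (box R).erase 0, (N l : ℝ) ^ β
        ≤ 26 * ((R : ℝ) + 1) ^ (β + 2) := by
      have h3 : ∀ l ∈ (box (R + 1)).erase 0 \ (box R).erase 0,
          (N l : ℝ) ^ β = ((R : ℝ) + 1) ^ β := by
        intro l hl
        simp only [Finset.mem_sdiff, Finset.mem_erase, mem_box, not_and, not_le] at hl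
        have : N l = R + 1 := by
          have := hl.1.2
          have := hl.2 hl.1.1
          omega
        rw [this]
        push_cast
        rfl
      rw [Finset.sum_congr rfl h3, Finset.sum_const, nsmul_eq_mul]
      have h4 : (((box (R + 1)).erase 0 \ (box R).erase 0).card : ℝ)
          ≤ 26 * ((R : ℝ) + 1) ^ 2 := by
        rw [Finset.card_sdiff_of_subset hsub, Finset.card_erase_of_mem (zero_mem_box _),
          Finset.card_erase_of_mem (zero_mem_box _), card_box, card_box]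
        have h5 : (2 * (R + 1) + 1) ^ 3 - 1 - ((2 * R + 1) ^ 3 - 1) ≤ 26 * (R + 1) ^ 2 := by
          have h6 : 1 ≤ (2 * R + 1) ^ 3 := Nat.one_le_pow _ _ (by omega)
          have h7 : (2 * (R + 1) + 1) ^ 3 ≤ (2 * R + 1) ^ 3 + 26 * (R + 1) ^ 2 := by
            nlinarith [sq_nonneg R]
          omega
        calc (((2 * (R + 1) + 1) ^ 3 - 1 - ((2 * R + 1) ^ 3 - 1) : ℕ) : ℝ)
            ≤ ((26 * (R + 1) ^ 2 : ℕ) : ℝ) := by exact_mod_cast h5
          _ = _ := by push_cast; ring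
      have hR1 : (0 : ℝ) < (R : ℝ) + 1 := by positivity
      calc (((box (R + 1)).erase 0 \ (box R).erase 0).card : ℝ) * ((R : ℝ) + 1) ^ β
          ≤ 26 * ((R : ℝ) + 1) ^ 2 * ((R : ℝ) + 1) ^ β := by gcongr
        _ = 26 * ((R : ℝ) + 1) ^ (β + 2) := by
          rw [Real.rpow_add hR1, Real.rpow_two]
          ring
    have h8 := rpow_step he R
    have e9 : β + 3 - 1 = β + 2 := by ring
    rw [e9] at h8
    have h10 : 26 * ((R : ℝ) + 1) ^ (β + 2)
        ≤ 26 / min (β + 3) 1 * (((R : ℝ) + 1) ^ (β + 3) - (R : ℝ) ^ (β + 3)) := by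
      rw [div_mul_eq_mul_div, le_div_iff₀ hm]
      nlinarith
    push_cast
    rw [mul_sub] at h10
    linarith

/-- Cauchy-Schwarz for `∑ |l| w(l)`. -/
theorem cs_sum {w : K3 → ℝ} {F : Finset K3} {R : ℕ} (hF : F ⊆ box R) (h0 : (0 : K3) ∉ F)
    {s : ℝ} (hs : s < 5 / 2) {Bd : ℝ}
    (hB : ∑ l ∈ F, (N l : ℝ) ^ (2 * s) * w l ^ 2 ≤ Bd ^ 2) (hB0 : 0 ≤ Bd) :
    ∑ l ∈ F, (N l : ℝ) * w l
      ≤ Real.sqrt (26 / min (5 - 2 * s) 1) * (R : ℝ) ^ (5 / 2 - s) * Bd := by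
  have h1 : ∀ l ∈ F, (N l : ℝ) * w l = (N l : ℝ) ^ (1 - s) * ((N l : ℝ) ^ s * w l) := by
    intro l hl
    have hN : (0 : ℝ) < N l := by
      have : N l ≠ 0 := fun h => h0 (by rw [← N_eq_zero.1 h]; exact hl)
      exact_mod_cast Nat.pos_of_ne_zero this
    rw [← mul_assoc, ← Real.rpow_add hN]
    norm_num
  rw [Finset.sum_congr rfl h1]
  refine (Real.sum_mul_le_sqrt_mul_sqrt _ _ _).trans ?_
  have hm : 0 < min (5 - 2 * s) 1 := lt_min (by linarith) one_pos
  have h2 : ∑ l ∈ F, ((N l : ℝ) ^ (1 - s)) ^ 2 ≤ 26 / min (5 - 2 * s) 1 * (R : ℝ) ^ (5 - 2 * s) := by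
    have h3 := lat (β := 2 - 2 * s) (by linarith) R
    have e3 : 2 - 2 * s + 3 = 5 - 2 * s := by ring
    rw [e3] at h3
    refine le_trans ?_ h3
    have h4 : ∀ l : K3, ((N l : ℝ) ^ (1 - s)) ^ 2 = (N l : ℝ) ^ (2 - 2 * s) := by
      intro l
      rw [← Real.rpow_natCast, ← Real.rpow_mul (Nat.cast_nonneg _)]
      congr 1
      push_cast
      ring
    simp_rw [h4]
    refine Finset.sum_le_sum_of_subset_of_nonneg (fun l hl => ?_) fun l _ _ => by positivity
    rw [Finset.mem_erase]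
    exact ⟨fun h => h0 (h ▸ hl), hF hl⟩
  have h5 : ∑ l ∈ F, ((N l : ℝ) ^ s * w l) ^ 2 ≤ Bd ^ 2 := by
    refine le_trans (le_of_eq ?_) hB
    refine Finset.sum_congr rfl fun l _ => ?_
    rw [mul_pow, ← Real.rpow_natCast ((N l : ℝ) ^ s), ← Real.rpow_mul (Nat.cast_nonneg _)]
    congr 2
    push_cast
    ring
  have hR : (0 : ℝ) ≤ R := Nat.cast_nonneg R
  have e6 : Real.sqrt (26 / min (5 - 2 * s) 1) * (R : ℝ) ^ (5 / 2 - s)
      = Real.sqrt (26 / min (5 - 2 * s) 1 * (R : ℝ) ^ (5 - 2 * s)) := by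
    rw [Real.sqrt_mul (by positivity)]
    congr 1
    rw [Real.sqrt_eq_rpow, ← Real.rpow_mul hR]
    congr 1
    ring
  rw [e6]
  refine mul_le_mul (Real.sqrt_le_sqrt h2) ?_ (Real.sqrt_nonneg _) (Real.sqrt_nonneg _)
  calc Real.sqrt (∑ l ∈ F, ((N l : ℝ) ^ s * w l) ^ 2) ≤ Real.sqrt (Bd ^ 2) := Real.sqrt_le_sqrt h5
    _ = Bd := Real.sqrt_sq hB0

end Pool.Agent.Q63.Win
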