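import Pool.Agent.Q63.Win.Evo
import Pool.Agent.H459R3.NS.High2

/-!
Smooth periodic solutions of the Navier-Stokes equations: Fourier coefficients.
-/

open MeasureTheory Set Filter Topology
open scoped ContDiff

namespace Pool.Agent.Q63.Win

open H459R3.NS

/-- the coefficients of a field -/
noncomputable def cof (v : V → V) : Fam := fun k i => fr (fun y => v y i) k

/-- the symbol of `- ν Δ` -/
noncomputable def msym (ν : ℝ) (k : K3) : ℝ := 4 * Real.pi ^ 2 * ν * ∑ j, (k j : ℝ) ^ 2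

theorem ee_eq (k : K3) (x : V) : ee (-k) x =
    ((Real.cos (2 * Real.pi * ph k x) : ℝ) : ℂ) - ((Real.sin (2 * Real.pi * ph k x) : ℝ) : ℂ) * Complex.I := by
  unfold ee
  rw [ph_neg]
  have e : 2 * (Real.pi : ℂ) * Complex.I * ((-ph k x : ℝ) : ℂ)
      = ((-(2 * Real.pi * ph k x) : ℝ) : ℂ) * Complex.I := by
    push_cast
    ring
  rw [e, Complex.exp_mul_I, ← Complex.ofReal_cos, ← Complex.ofReal_sin, Real.cos_neg, Real.sin_neg]
  push_cast
  ring

theorem fr_eq {f : V → ℝ} (hf : Continuous f) (k : K3) : fr f k =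
    ((∫ x in cube, Real.cos (2 * Real.pi * ph k x) * f x : ℝ) : ℂ) +
      ((-∫ x in cube, Real.sin (2 * Real.pi * ph k x) * f x : ℝ) : ℂ) * Complex.I := by
  have hph : Continuous (ph k) := (ph_contDiff k (n := 0)).continuous
  have h1 : Continuous fun x => Real.cos (2 * Real.pi * ph k x) * f x := by fun_prop
  have h2 : Continuous fun x => Real.sin (2 * Real.pi * ph k x) * f x := by fun_prop
  unfold fr fc
  have e : ∀ x, ee (-k) x * (f x : ℂ) = ((Real.cos (2 * Real.pi * ph k x) * f x : ℝ) : ℂ)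
      - ((Real.sin (2 * Real.pi * ph k x) * f x : ℝ) : ℂ) * Complex.I := by
    intro x
    rw [ee_eq]
    push_cast
    ring
  simp_rw [e]
  rw [integral_sub, integral_mul_const, integral_complex_ofReal, integral_complex_ofReal]
  · push_cast
    ring
  · exact integrableOn_cube (Complex.continuous_ofReal.comp h1)
  · exact integrableOn_cube ((Complex.continuous_ofReal.comp h2).mul continuous_const)

theorem fr_neg {f : V → ℝ} (hf : Continuous f) (k : K3) :
    fr f (-k) = (starRingEnd ℂ) (fr f k) := by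
  rw [fr_eq hf, fr_eq hf]
  simp only [map_add, map_mul, Complex.conj_ofReal, Complex.conj_I, ph_neg, mul_neg, Real.cos_neg,
    Real.sin_neg, neg_mul, integral_neg]
  push_cast
  ring

theorem fr_mul {f g : V → ℝ} (hf : SP f) (hg : SP g) (k : K3) :
    HasSum (fun q => fr f (k - q) * fr g q) (fr (fun x => f x * g x) k) := by
  have h := integral_ee_S_S (-k) (rap_fr hg).summable (rap_fr hf).summable
  rw [neg_neg] at h
  have e : (∫ x in cube, ee (-k) x * (S (fr g) x * S (fr f) x)) = fr (fun x => f x * g x) k := by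
    simp_rw [S_fr hf, S_fr hg]
    unfold fr fc
    congr 1
    funext x
    push_cast
    ring
  rw [e] at h
  refine h.congr_fun fun q => ?_
  ring

theorem hasDerivAt_frc {T : ℝ} {F : ℝ → V → ℝ}
    (hF : ContDiffOn ℝ ∞ (fun z : ℝ × V => F z.1 z.2) (Ico 0 T ×ˢ univ)) {t : ℝ}
    (ht : t ∈ Ioo 0 T) (k : K3) : HasDerivAt (fun s => fr (F s) k) (fr (dt F t) k) t := by
  have hph : ContDiff ℝ 1 (fun z : ℝ × V => ph k z.2) := (ph_contDiff k).comp contDiff_snd
  have hF1 : ContDiffOn ℝ 1 (fun z : ℝ × V => F z.1 z.2) (Ioo 0 T ×ˢ univ) :=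
    mono_Ioo hF (by norm_cast)
  have hcos : ContDiffOn ℝ 1 (fun z : ℝ × V => Real.cos (2 * Real.pi * ph k z.2) * F z.1 z.2)
      (Ioo 0 T ×ˢ univ) := by
    refine ContDiffOn.mul ?_ hF1
    exact (Real.contDiff_cos.comp (contDiff_const.mul hph)).contDiffOn
  have hsin : ContDiffOn ℝ 1 (fun z : ℝ × V => Real.sin (2 * Real.pi * ph k z.2) * F z.1 z.2)
      (Ioo 0 T ×ˢ univ) := by
    refine ContDiffOn.mul ?_ hF1
    exact (Real.contDiff_sin.comp (contDiff_const.mul hph)).contDiffOn
  have h1 := hasDerivAt_int (F := fun s x => Real.cos (2 * Real.pi * ph k x) * F s x) hcos ht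
  have h2 := hasDerivAt_int (F := fun s x => Real.sin (2 * Real.pi * ph k x) * F s x) hsin ht
  have hsl : ∀ x, HasDerivAt (fun s => F s x) (dt F t x) t := by
    intro x
    have := hasDerivAt_slice (F := F) hF1 ht x
    rwa [← H459R3.NS.dt_eq hF ht x] at this
  have e1 : ∀ x, deriv (fun s => Real.cos (2 * Real.pi * ph k x) * F s x) t
      = Real.cos (2 * Real.pi * ph k x) * dt F t x := fun x => ((hsl x).const_mul _).deriv
  have e2 : ∀ x, deriv (fun s => Real.sin (2 * Real.pi * ph k x) * F s x) t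
      = Real.sin (2 * Real.pi * ph k x) * dt F t x := fun x => ((hsl x).const_mul _).deriv
  simp_rw [e1] at h1
  simp_rw [e2] at h2
  have hc : Continuous (dt F t) := (contDiff_dt hF ht).continuous
  rw [fr_eq hc]
  have h3 := (h1.ofReal_comp).add ((h2.neg.ofReal_comp).mul_const Complex.I)
  refine h3.congr_of_eventuallyEq ?_
  filter_upwards [Ioo_mem_nhds ht.1 ht.2] with s hs
  rw [fr_eq (contDiff_slice hF ⟨hs.1.le, hs.2⟩).continuous]
  rfl

theorem norm_fr_le_of_bound {f : V → ℝ} {C : ℝ} (h : ∀ x ∈ cube, |f x| ≤ C) (k : K3) :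
    ‖fr f k‖ ≤ C := by
  unfold fr fc
  have hv : volume cube < ⊤ := by rw [volume_cube]; exact ENNReal.one_lt_top
  have := norm_setIntegral_le_of_norm_le_const (μ := volume) (s := cube)
    (f := fun x => ee (-k) x * (f x : ℂ)) (C := C) hv (fun x hx => by
      rw [norm_mul, norm_ee, one_mul, Complex.norm_real]
      exact h x hx)
  refine this.trans (le_of_eq ?_)
  rw [measureReal_def, volume_cube]
  simp

theorem iter_smooth {T : ℝ} {F : ℝ → V → ℝ}
    (hF : ContDiffOn ℝ ∞ (fun z : ℝ × V => F z.1 z.2) (Ico 0 T ×ˢ univ)) (j : Fin 3) (n : ℕ) :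
    ContDiffOn ℝ ∞ (fun z : ℝ × V => (pd j)^[n] (F z.1) z.2) (Ico 0 T ×ˢ univ) := by
  induction n with
  | zero => exact hF
  | succ n ih =>
    have := contDiffOn_pd (f := fun s => (pd j)^[n] (F s)) ih j
    refine this.congr fun z _ => ?_
    rw [Function.iterate_succ_apply']

theorem unif_fr {T : ℝ} {F : ℝ → V → ℝ}
    (hF : ContDiffOn ℝ ∞ (fun z : ℝ × V => F z.1 z.2) (Ico 0 T ×ˢ univ))
    (hper : ∀ t ∈ Ico 0 T, Per (F t)) (n : ℕ) {b : ℝ} (hb : b < T) :
    ∃ M, 0 ≤ M ∧ ∀ t ∈ Icc 0 b, ∀ k, (N k : ℝ) ^ n * ‖fr (F t) k‖ ≤ M := by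
  have hK : IsCompact (Icc 0 b ×ˢ cube) := isCompact_Icc.prod isCompact_Icc
  have hsub : Icc 0 b ×ˢ cube ⊆ Ico 0 T ×ˢ (univ : Set V) :=
    prod_mono (fun s hs => ⟨hs.1, hs.2.trans_lt hb⟩) (subset_univ _)
  choose C hC using fun j => hK.exists_bound_of_continuousOn
    ((iter_smooth hF j n).continuousOn.mono hsub)
  refine ⟨∑ j, |C j|, Finset.sum_nonneg fun _ _ => abs_nonneg _, fun t ht k => ?_⟩
  have htI : t ∈ Ico 0 T := ⟨ht.1, ht.2.trans_lt hb⟩
  have hsp : SP (F t) := ⟨contDiff_slice hF htI, hper t htI⟩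
  have h1 : ∀ j, |(k j : ℝ)| ^ n * ‖fr (F t) k‖ ≤ |C j| := by
    intro j
    have h2 : ‖fr ((pd j)^[n] (F t)) k‖ ≤ C j :=
      norm_fr_le_of_bound (fun x hx => hC j (t, x) ⟨ht, hx⟩) k
    refine le_trans ?_ (h2.trans (le_abs_self _))
    rw [fr_iter hsp, norm_mul, norm_pow]
    gcongr
    rw [norm_mul, norm_mul, norm_mul, Complex.norm_I, mul_one, Complex.norm_real,
      Real.norm_eq_abs, abs_of_pos Real.pi_pos, Complex.norm_ofNat, Complex.norm_intCast]
    have h0 : 0 ≤ |(k j : ℝ)| := abs_nonneg _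
    have := Real.pi_gt_three
    nlinarith
  calc (N k : ℝ) ^ n * ‖fr (F t) k‖ ≤ (∑ j, |(k j : ℝ)| ^ n) * ‖fr (F t) k‖ := by
        gcongr
        exact N_pow_le k n
    _ = ∑ j, |(k j : ℝ)| ^ n * ‖fr (F t) k‖ := Finset.sum_mul _ _ _
    _ ≤ ∑ j, |C j| := Finset.sum_le_sum fun j _ => h1 j

theorem one_add_pow_le (x : ℝ) (hx : 0 ≤ x) (n : ℕ) : (1 + x) ^ n ≤ 2 ^ n * (1 + x ^ n) := by
  rcases le_total x 1 with h | h
  · have h1 : (1 + x) ^ n ≤ 2 ^ n := pow_le_pow_left₀ (by positivity) (by linarith) n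
    have h2 : (0 : ℝ) ≤ 2 ^ n * x ^ n := by positivity
    nlinarith
  · have h1 : (1 + x) ^ n ≤ (2 * x) ^ n := pow_le_pow_left₀ (by positivity) (by linarith) n
    rw [mul_pow] at h1
    have h2 : (0 : ℝ) ≤ 2 ^ n := by positivity
    nlinarith

variable {ν T : ℝ} {u : ℝ → V → V} {p : ℝ → V → ℝ}

/-- A smooth periodic solution. -/
theorem fsol_of_isSol (h : IsSol ν T u p) : FSol (msym ν) T (fun t => cof (u t)) where
  rap := by
    intro n a b ha hb
    choose M hM0 hM using fun i => unif_fr (F := fun s y => u s y i) (h.smooth_c i)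
      (fun t ht => (h.sp ht i).per) n hb
    choose M' hM'0 hM' using fun i => unif_fr (F := fun s y => u s y i) (h.smooth_c i)
      (fun t ht => (h.sp ht i).per) 0 hb
    refine ⟨2 ^ n * (∑ i, M' i + ∑ i, M i), fun t ht k i => ?_⟩
    have htI : t ∈ Icc 0 b := ⟨ha.le.trans ht.1, ht.2⟩
    have h1 := hM i t htI k
    have h2 := hM' i t htI k
    rw [pow_zero, one_mul] at h2
    have h3 : M i ≤ ∑ i, M i := Finset.single_le_sum (f := M) (fun i _ => hM0 i) (Finset.mem_univ i)
    have h4 : M' i ≤ ∑ i, M' i :=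
      Finset.single_le_sum (f := M') (fun i _ => hM'0 i) (Finset.mem_univ i)
    calc (1 + (N k : ℝ)) ^ n * ‖cof (u t) k i‖
        ≤ 2 ^ n * (1 + (N k : ℝ) ^ n) * ‖cof (u t) k i‖ := by
          gcongr
          exact one_add_pow_le _ (Nat.cast_nonneg _) n
      _ = 2 ^ n * (‖fr (fun y => u t y i) k‖ + (N k : ℝ) ^ n * ‖fr (fun y => u t y i) k‖) := by
          unfold cof; ring
      _ ≤ 2 ^ n * (∑ i, M' i + ∑ i, M i) := by
          gcongr
          · exact h2.trans h4
          · exact h1.trans h3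
  real := by
    intro t ht k i
    exact fr_neg (h.sp ⟨ht.1.le, ht.2⟩ i).cont k
  div := by
    intro t ht k
    exact fr_div (v := fun i y => u t y i) (fun i => h.sp ⟨ht.1.le, ht.2⟩ i)
      (h.divfree t ⟨ht.1.le, ht.2⟩) k
  esq := by
    intro t ht k
    have hI : t ∈ Ico 0 T := ⟨ht.1.le, ht.2⟩
    set v : Fin 3 → V → ℝ := fun i y => u t y i with hv
    have hsp : ∀ i, SP (v i) := fun i => h.sp hI i
    have hd : ∀ i, HasDerivAt (fun s => cof (u s) k i) (fr (dt (fun s y => u s y i) t) k) t :=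
      fun i => hasDerivAt_frc (F := fun s y => u s y i) (h.smooth_c i) ht k
    -- the derivative of the coefficient
    have hdt : ∀ i, fr (dt (fun s y => u s y i) t) k
        = -((msym ν k : ℝ) : ℂ) * cof (u t) k i - NL (cof (u t)) k i
          - 2 * Real.pi * Complex.I * (k i : ℂ) * fr (p t) k := by
      intro i
      have e0 : dt (fun s y => u s y i) t = fun x => ν * lap (v i) x - conv v i x
          - pd i (p t) x := by
        funext x
        exact h.dt_eq ht i x
      have c1 : Continuous (lap (v i)) := (hsp i).lap.cont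
      have c2 : Continuous (conv v i) := (sp_conv hsp i).cont
      have c3 : Continuous (pd i (p t)) := ((h.sp_p hI).pd i).cont
      have e1 : fr (fun x => ν * lap (v i) x - conv v i x - pd i (p t) x) k
          = ν * fr (lap (v i)) k - fr (conv v i) k - fr (pd i (p t)) k := by
        unfold fr fc
        have hee := ee_continuous (-k)
        have i1 : IntegrableOn (fun x => (ν : ℂ) * (ee (-k) x * ((lap (v i) x : ℝ) : ℂ))) cube :=
          integrableOn_cube (continuous_const.mul (hee.mul (Complex.continuous_ofReal.comp c1)))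
        have i2 : IntegrableOn (fun x => ee (-k) x * ((conv v i x : ℝ) : ℂ)) cube :=
          integrableOn_cube (hee.mul (Complex.continuous_ofReal.comp c2))
        have i3 : IntegrableOn (fun x => ee (-k) x * ((pd i (p t) x : ℝ) : ℂ)) cube :=
          integrableOn_cube (hee.mul (Complex.continuous_ofReal.comp c3))
        have i12 : IntegrableOn (fun x => (ν : ℂ) * (ee (-k) x * ((lap (v i) x : ℝ) : ℂ))
            - ee (-k) x * ((conv v i x : ℝ) : ℂ)) cube := i1.sub i2
        rw [← integral_const_mul, ← integral_sub i1 i2, ← integral_sub i12 i3]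
        congr 1
        funext x
        push_cast
        ring
      have e2 : fr (lap (v i)) k = -(4 * Real.pi ^ 2 * ∑ j, (k j : ℝ) ^ 2 : ℝ) * fr (v i) k := by
        have : lap (v i) = fun x => ∑ j, pd j (pd j (v i)) x := rfl
        rw [this, fr_sum (fun j _ => ((hsp i).pd j).pd j)]
        simp_rw [fr_pd ((hsp i).pd _), D, fr_pd (hsp i), D]
        push_cast
        rw [Finset.mul_sum, ← Finset.sum_neg_distrib, Finset.sum_mul]
        refine Finset.sum_congr rfl fun j _ => ?_
        have hI2 : Complex.I ^ 2 = -1 := Complex.I_sq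
        linear_combination (4 * (Real.pi : ℂ) ^ 2 * (k j : ℂ) ^ 2 * fr (v i) k) * hI2
      have e3 : fr (conv v i) k = NL (cof (u t)) k i := by
        have : conv v i = fun x => ∑ j, v j x * pd j (v i) x := rfl
        rw [this, fr_sum (fun j _ => (hsp j).mul ((hsp i).pd j))]
        unfold NL
        have hs : ∀ j, HasSum (fun q => fr (v j) (k - q) * fr (pd j (v i)) q)
            (fr (fun x => v j x * pd j (v i) x) k) := fun j => fr_mul (hsp j) ((hsp i).pd j) k
        have := hasSum_sum fun j (_ : j ∈ Finset.univ) => hs j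
        rw [← this.tsum_eq]
        refine tsum_congr fun q => ?_
        refine Finset.sum_congr rfl fun j _ => ?_
        rw [fr_pd (hsp i), D]
        unfold cof
        ring
      have e4 : fr (pd i (p t)) k = 2 * Real.pi * Complex.I * (k i : ℂ) * fr (p t) k := by
        rw [fr_pd (h.sp_p hI), D]
      rw [e0, e1, e2, e3, e4]
      unfold msym cof
      push_cast
      ring
    have hsq : ∀ i, HasDerivAt (fun s => ‖cof (u s) k i‖ ^ 2)
        (2 * ((starRingEnd ℂ) (cof (u t) k i) * fr (dt (fun s y => u s y i) t) k).re) t := by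
      intro i
      have h1 := (hd i).norm_sq
      refine h1.congr_deriv ?_
      congr 1
      rw [Complex.inner, mul_comm]
    have hsum : HasDerivAt (fun s => amp (cof (u s)) k ^ 2)
        (∑ i, 2 * ((starRingEnd ℂ) (cof (u t) k i) * fr (dt (fun s y => u s y i) t) k).re) t := by
      simp_rw [amp_sq]
      exact HasDerivAt.fun_sum fun i _ => hsq i
    refine hsum.congr_deriv ?_
    rw [← Finset.mul_sum, ← Complex.re_sum]
    have hdiv : ∑ i, (k i : ℂ) * cof (u t) k i = 0 :=
      fr_div (v := fun i y => u t y i) (fun i => h.sp hI i) (h.divfree t hI) k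
    have hdiv' : ∑ i, (starRingEnd ℂ) (cof (u t) k i) * (k i : ℂ) = 0 := by
      have := congrArg (starRingEnd ℂ) hdiv
      rw [map_sum, map_zero] at this
      rw [← this]
      refine Finset.sum_congr rfl fun i _ => ?_
      rw [map_mul, map_intCast, mul_comm]
    have e5 : ∑ i, (starRingEnd ℂ) (cof (u t) k i) * fr (dt (fun s y => u s y i) t) k
        = -((msym ν k : ℝ) : ℂ) * ((amp (cof (u t)) k ^ 2 : ℝ) : ℂ)
          - ∑ i, (starRingEnd ℂ) (cof (u t) k i) * NL (cof (u t)) k i := by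
      simp_rw [hdt]
      have e6 : ∀ i, (starRingEnd ℂ) (cof (u t) k i) * (-((msym ν k : ℝ) : ℂ) * cof (u t) k i
          - NL (cof (u t)) k i - 2 * Real.pi * Complex.I * (k i : ℂ) * fr (p t) k)
          = -((msym ν k : ℝ) : ℂ) * ((‖cof (u t) k i‖ ^ 2 : ℝ) : ℂ)
            - (starRingEnd ℂ) (cof (u t) k i) * NL (cof (u t)) k i
            - (2 * Real.pi * Complex.I * fr (p t) k) *
              ((starRingEnd ℂ) (cof (u t) k i) * (k i : ℂ)) := by
        intro i
        have e7 : ((‖cof (u t) k i‖ ^ 2 : ℝ) : ℂ)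
            = (starRingEnd ℂ) (cof (u t) k i) * cof (u t) k i := by
          rw [Complex.conj_mul']
          push_cast
          rfl
        rw [e7]
        ring
      simp_rw [e6]
      rw [Finset.sum_sub_distrib, Finset.sum_sub_distrib, ← Finset.mul_sum, ← Finset.mul_sum,
        hdiv', mul_zero, sub_zero, amp_sq]
      push_cast
      rfl
    rw [e5, Complex.sub_re]
    have e8 : (-((msym ν k : ℝ) : ℂ) * ((amp (cof (u t)) k ^ 2 : ℝ) : ℂ)).re
        = -(msym ν k * amp (cof (u t)) k ^ 2) := by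
      rw [← Complex.ofReal_neg, ← Complex.ofReal_mul, Complex.ofReal_re]
      ring
    rw [e8]
    ring

theorem msym_pol (hν : 0 ≤ ν) : Pol (msym ν) := by
  refine ⟨12 * Real.pi ^ 2 * ν, 2, by positivity, fun k => ?_⟩
  have h1 : ∑ j, (k j : ℝ) ^ 2 ≤ 3 * (1 + (N k : ℝ)) ^ 2 := by
    calc ∑ j, (k j : ℝ) ^ 2 ≤ ∑ _j : Fin 3, (1 + (N k : ℝ)) ^ 2 := by
          refine Finset.sum_le_sum fun j _ => ?_
          have := one_add_sq_le k j
          linarith
      _ = 3 * (1 + (N k : ℝ)) ^ 2 := by simp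
  have h0 : 0 ≤ ∑ j, (k j : ℝ) ^ 2 := Finset.sum_nonneg fun _ _ => sq_nonneg _
  unfold msym
  rw [abs_of_nonneg (by positivity)]
  calc 4 * Real.pi ^ 2 * ν * ∑ j, (k j : ℝ) ^ 2
      ≤ 4 * Real.pi ^ 2 * ν * (3 * (1 + (N k : ℝ)) ^ 2) := by gcongr
    _ = _ := by ring

theorem msym_ge (hν : 0 ≤ ν) (k : K3) : 36 * ν * (N k : ℝ) ^ 2 ≤ msym ν k := by
  have h1 := N_sq_le k
  have hpi : 9 ≤ Real.pi ^ 2 := by nlinarith [Real.pi_gt_three]
  unfold msym
  calc 36 * ν * (N k : ℝ) ^ 2 = 4 * 9 * ν * (N k : ℝ) ^ 2 := by ring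
    _ ≤ 4 * Real.pi ^ 2 * ν * ∑ j, (k j : ℝ) ^ 2 := by
        gcongr

end Pool.Agent.Q63.Win
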