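import Pool.Agent.Q63.Win.Fin

/-!
Every window of frequencies `K^θ < |k| ≤ K` is critical at a blow-up.
-/

open MeasureTheory Set Filter Topology
open scoped ENNReal

namespace Pool.Agent.Q63.Win

open H459R3.NS

theorem C1_pos {M : ℕ} (hM : 1 ≤ M) : 0 < C1 M := by
  unfold C1
  have : (0 : ℝ) < M := by exact_mod_cast hM
  positivity

theorem As_pos {s : ℝ} (hs : s < 5 / 2) : 0 < As s := by
  unfold As
  apply Real.sqrt_pos.2
  apply div_pos (by norm_num)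
  exact lt_min (by linarith) (by norm_num)

/-- the constant -/
noncomputable def Qc (M : ℕ) (s : ℝ) : ℝ :=
  (C1 M * (As s * 2 ^ (5 / 2 - s))) ^ (4 / (2 * s - 1))

theorem Qc_pos {M : ℕ} (hM : 1 ≤ M) {s : ℝ} (hs : s < 5 / 2) : 0 < Qc M s := by
  have := C1_pos hM
  have := As_pos hs
  unfold Qc
  positivity

theorem cond_high {M : ℕ} (hM : 1 ≤ M) {s : ℝ} (hs1 : 1 / 2 < s) (hs2 : s < 5 / 2) {ν : ℝ}
    (hν : 0 < ν) {W : ℝ} (hW : 0 ≤ W) {x : ℝ} (hx : 0 ≤ x) :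
    C1 M * (As s * (2 * x) ^ (5 / 2 - s) * Real.sqrt W)
      ≤ ν * x ^ 2 + ν ^ (-((5 - 2 * s) / (2 * s - 1))) * Qc M s * W ^ (2 / (2 * s - 1)) := by
  have hC := (C1_pos hM).le
  have hA := (As_pos hs2).le
  have h1 : (2 * x) ^ (5 / 2 - s) = 2 ^ (5 / 2 - s) * x ^ (5 / 2 - s) :=
    Real.mul_rpow (by norm_num) hx
  have h2s : 0 < 2 * s - 1 := by linarith
  have h := young2 (γ := 5 / 2 - s) (x := x) (b := C1 M * (As s * 2 ^ (5 / 2 - s)) * Real.sqrt W)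
    (by linarith) (by linarith) hx (by positivity) hν
  have e1 : (5 / 2 - s) / (2 - (5 / 2 - s)) = (5 - 2 * s) / (2 * s - 1) := by
    rw [div_eq_div_iff (by linarith) (by linarith)]
    ring
  have e2 : 2 / (2 - (5 / 2 - s)) = 4 / (2 * s - 1) := by
    rw [div_eq_div_iff (by linarith) (by linarith)]
    ring
  rw [e1, e2] at h
  have e3 : (C1 M * (As s * 2 ^ (5 / 2 - s)) * Real.sqrt W) ^ (4 / (2 * s - 1))
      = Qc M s * W ^ (2 / (2 * s - 1)) := by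
    rw [Real.mul_rpow (by positivity) (Real.sqrt_nonneg _), Qc]
    congr 1
    rw [Real.sqrt_eq_rpow, ← Real.rpow_mul hW]
    congr 1
    field_simp
    norm_num
  rw [e3] at h
  rw [h1]
  calc C1 M * (As s * (2 ^ (5 / 2 - s) * x ^ (5 / 2 - s)) * Real.sqrt W)
      = C1 M * (As s * 2 ^ (5 / 2 - s)) * Real.sqrt W * x ^ (5 / 2 - s) := by ring
    _ ≤ _ := h
    _ = _ := by ring

/-- the solution starts at a positive time, and all parameters are chosen -/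
theorem real_window {ν T : ℝ} {u : ℝ → V → V} {p : ℝ → V → ℝ} (h : IsSol ν T u p) (hν : 0 < ν)
    (hub : ¬ ∃ C, ∀ t ∈ Ico 0 T, ∀ x i, |u t x i| ≤ C)
    {θ : ℝ} (hθ0 : 0 < θ) (hθ : θ < 4 / 5) {M : ℕ}
    (hM4 : 4 ≤ M) (hMl : 4 ≤ (M : ℝ) * (1 - lam ((θ + 4 / 5) / 2))) {s : ℝ} (hs0 : 0 ≤ s)
    (hs : s < 5 / 2) {t₀ : ℝ} (ht₀ : t₀ ∈ Ico 0 T) :
    ∀ᶠ K : ℝ in atTop, ∃ W : ℝ → ℝ, ContinuousOn W (Ioo 0 T) ∧ (∀ t, 0 ≤ W t) ∧
      (∀ t, W t ≤ window s θ K (u t)) ∧ (t₀ + T) / 2 < T ∧ t₀ < (t₀ + T) / 2 ∧ 0 < (t₀ + T) / 2 ∧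
      ∀ g : ℝ → ℝ, (∀ t, 0 ≤ g t) → ContinuousOn g (Ioo 0 T) →
      (∀ t ∈ Ico ((t₀ + T) / 2) T, ∀ x : ℝ, 0 ≤ x → C1 M * (As s * (2 * x) ^ (5 / 2 - s) *
        Real.sqrt (W t)) ≤ ν * x ^ 2 + g t) →
      ¬ (∀ t ∈ Ico ((t₀ + T) / 2) T, ∫ τ in ((t₀ + T) / 2)..t, g τ ≤ 1 / 4 * Real.log K) := by
  have hf := fsol_of_isSol h
  set θ' : ℝ := (θ + 4 / 5) / 2 with hθ'
  have hθ'0 : 0 < θ' := by rw [hθ']; linarith
  have hθ'1 : θ' < 4 / 5 := by rw [hθ']; linarith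
  have hlt : θ < θ' := by rw [hθ']; linarith
  set a : ℝ := (t₀ + T) / 2 with ha
  have ha0 : 0 < a := by rw [ha]; linarith [ht₀.1, ht₀.2]
  have haT : a < T := by rw [ha]; linarith [ht₀.1, ht₀.2]
  have hta : t₀ < a := by rw [ha]; linarith [ht₀.1, ht₀.2]
  have hw := hf.window (msym_pol hν.le) hν (msym_ge hν.le) hθ'0 hθ'1 hM4 hMl hs ha0 haT
  have hfl : Tendsto (fun K : ℝ => ⌊K / 2⌋₊) atTop atTop :=
    tendsto_nat_floor_atTop.comp (tendsto_id.atTop_div_const (by norm_num))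
  have c1 := hfl.eventually hw
  have c2 : ∀ᶠ K : ℝ in atTop, 16 ≤ K := eventually_ge_atTop 16
  have c3 : ∀ᶠ K : ℝ in atTop, (4 : ℝ) ^ θ' ≤ K ^ (θ' - θ) :=
    (tendsto_rpow_atTop (by linarith)).eventually_ge_atTop _
  filter_upwards [c1, c2, c3] with K h1 h2 h3
  set K' := ⌊K / 2⌋₊ with hK'
  have hK0 : 0 < K := by linarith
  have hK'le : (K' : ℝ) ≤ K / 2 := Nat.floor_le (by positivity)
  have hK'ge : K / 4 ≤ K' := by
    have := Nat.lt_floor_add_one (K / 2)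
    rw [← hK'] at this
    linarith
  have hK'0 : (0 : ℝ) < K' := by linarith
  have hpow : K ^ θ ≤ (K' : ℝ) ^ θ' := by
    calc K ^ θ = K ^ θ' / K ^ (θ' - θ) := by
          rw [← Real.rpow_sub hK0]; ring_nf
      _ ≤ K ^ θ' / 4 ^ θ' := by gcongr
      _ = (K / 4) ^ θ' := by rw [Real.div_rpow hK0.le (by norm_num)]
      _ ≤ (K' : ℝ) ^ θ' := by gcongr
  have hlog : 1 / 4 * Real.log K ≤ 1 / 2 * Real.log K' := by
    have h5 : Real.log K ≤ 2 * Real.log (K / 4) := by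
      rw [← Real.log_rpow (by positivity)]
      apply Real.log_le_log hK0
      norm_num
      nlinarith
    have h6 : Real.log (K / 4) ≤ Real.log K' := Real.log_le_log (by positivity) hK'ge
    linarith
  set κ := ⌊(K' : ℝ) ^ θ'⌋₊ with hκ
  have hlo : ∀ n : ℕ, κ < n → K ^ θ < n := by
    intro n hn
    have h7 : (K' : ℝ) ^ θ' < n := (Nat.floor_lt (by positivity)).1 hn
    exact hpow.trans_lt h7
  refine ⟨fun t => winS s κ K' (amp (cof (u t))), hf.winS_continuousOn s κ K', ?_, ?_, haT, hta,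
    ha0, ?_⟩
  · intro t
    unfold winS
    exact Finset.sum_nonneg fun l _ => by
      have : 0 ≤ len l := Real.sqrt_nonneg _
      positivity
  · intro t
    exact winS_le_window hs0 hlo (by linarith) (u t)
  · intro g hg0 hgc hgx hint
    obtain ⟨C, hC⟩ := h1 g hg0 hgc hgx fun t ht => (hint t ht).trans hlog
    exact hub (bounded_of_XX h hν ha0 haT hC)

theorem blowup_window {θ : ℝ} (hθ0 : 0 < θ) (hθ : θ < 4 / 5) {s : ℝ} (hs1 : 1 / 2 < s)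
    (hs2 : s < 5 / 2) : ∃ a > 0, ∀ (ν T : ℝ) (u : ℝ → V → V) (p : ℝ → V → ℝ), 0 < ν →
      IsSol ν T u p → (¬ ∃ C, ∀ t ∈ Ico 0 T, ∀ x i, |u t x i| ≤ C) → ∀ t₀ ∈ Ico 0 T,
      ∀ᶠ K : ℝ in atTop, ENNReal.ofReal (a * ν ^ ((5 - 2 * s) / (2 * s - 1)) * Real.log K)
        ≤ ∫⁻ t in Ioo t₀ T, ENNReal.ofReal (window s θ K (u t) ^ (2 / (2 * s - 1))) := by
  obtain ⟨M, hM4, hMl⟩ := exists_M (θ := (θ + 4 / 5) / 2) (by linarith)
  have hM1 : 1 ≤ M := by omega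
  have hQ := Qc_pos hM1 hs2
  refine ⟨1 / (4 * Qc M s), by positivity, fun ν T u p hν h hub t₀ ht₀ => ?_⟩
  have h2s : 0 < 2 * s - 1 := by linarith
  filter_upwards [real_window h hν hub hθ0 hθ hM4 hMl (by linarith : (0 : ℝ) ≤ s) hs2 ht₀,
    eventually_ge_atTop (1 : ℝ)] with K hK hK1
  obtain ⟨W, hWc, hW0, hWle, haT, hta, ha0, hno⟩ := hK
  by_contra hcon
  rw [not_le] at hcon
  set a : ℝ := (t₀ + T) / 2 with ha
  set e : ℝ := 2 / (2 * s - 1) with he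
  have he0 : 0 ≤ e := by positivity
  set b : ℝ := (5 - 2 * s) / (2 * s - 1) with hb
  have hWe : ContinuousOn (fun t => W t ^ e) (Ioo 0 T) :=
    hWc.rpow_const fun t _ => Or.inr he0
  refine hno (fun t => ν ^ (-b) * Qc M s * W t ^ e) (fun t => ?_) (continuousOn_const.mul hWe)
    (fun t ht x hx => cond_high hM1 hs1 hs2 hν (hW0 t) hx) fun t ht => ?_
  · have := hW0 t
    positivity
  · have hsub : Icc a t ⊆ Ioo 0 T := fun r hr => ⟨ha0.trans_le hr.1, hr.2.trans_lt ht.2⟩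
    have hint : IntegrableOn (fun r => W r ^ e) (Ioc a t) := by
      refine IntegrableOn.mono_set ?_ Ioc_subset_Icc_self
      exact (hWe.mono hsub).integrableOn_Icc
    rw [intervalIntegral.integral_const_mul, intervalIntegral.integral_of_le ht.1]
    have hval : ∫ r in Ioc a t, W r ^ e ≤ 1 / (4 * Qc M s) * ν ^ b * Real.log K := by
      have hlogK : 0 ≤ Real.log K := Real.log_nonneg hK1
      rw [integral_eq_lintegral_of_nonneg_ae
        (Filter.Eventually.of_forall fun r => Real.rpow_nonneg (hW0 r) e)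
        hint.aestronglyMeasurable]
      have hrhs : 0 ≤ 1 / (4 * Qc M s) * ν ^ b * Real.log K := by positivity
      refine ENNReal.toReal_le_of_le_ofReal hrhs ?_
      refine le_trans ?_ hcon.le
      have hmono : ∫⁻ r in Ioc a t, ENNReal.ofReal (W r ^ e)
          ≤ ∫⁻ r in Ioo t₀ T, ENNReal.ofReal (W r ^ e) :=
        lintegral_mono_set fun r hr => ⟨hta.trans hr.1, hr.2.trans_lt ht.2⟩
      refine hmono.trans (lintegral_mono fun r => ?_)
      exact ENNReal.ofReal_le_ofReal (Real.rpow_le_rpow (hW0 r) (hWle r) he0)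
    calc ν ^ (-b) * Qc M s * ∫ r in Ioc a t, W r ^ e
        ≤ ν ^ (-b) * Qc M s * (1 / (4 * Qc M s) * ν ^ b * Real.log K) := by gcongr
      _ = (ν ^ (-b) * ν ^ b) * (1 / 4 * Real.log K) := by field_simp
      _ = 1 / 4 * Real.log K := by
          rw [← Real.rpow_add hν]
          simp

theorem blowup_window_half {θ : ℝ} (hθ0 : 0 < θ) (hθ : θ < 4 / 5) :
    ∃ c > 0, ∀ (ν T : ℝ) (u : ℝ → V → V) (p : ℝ → V → ℝ), 0 < ν →
      IsSol ν T u p → (¬ ∃ C, ∀ t ∈ Ico 0 T, ∀ x i, |u t x i| ≤ C) → ∀ t₀ ∈ Ico 0 T,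
      ∀ᶠ K : ℝ in atTop, ∃ t ∈ Ioo t₀ T, c * ν ^ 2 < window (1 / 2) θ K (u t) := by
  obtain ⟨M, hM4, hMl⟩ := exists_M (θ := (θ + 4 / 5) / 2) (by linarith)
  have hM1 : 1 ≤ M := by omega
  have hC := C1_pos hM1
  have hA := As_pos (s := 1 / 2) (by norm_num)
  refine ⟨(1 / (C1 M * (As (1 / 2) * 4))) ^ 2, by positivity, fun ν T u p hν h hub t₀ ht₀ => ?_⟩
  filter_upwards [real_window h hν hub hθ0 hθ hM4 hMl (by norm_num : (0 : ℝ) ≤ 1 / 2)
    (by norm_num) ht₀, eventually_ge_atTop (1 : ℝ)] with K hK hK1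
  obtain ⟨W, hWc, hW0, hWle, haT, hta, ha0, hno⟩ := hK
  by_contra hcon
  push Not at hcon
  refine hno (fun _ => 0) (fun _ => le_rfl) continuousOn_const (fun t ht x hx => ?_) fun t ht => ?_
  · have h1 : Real.sqrt (W t) ≤ 1 / (C1 M * (As (1 / 2) * 4)) * ν := by
      rw [← Real.sqrt_sq (by positivity : 0 ≤ 1 / (C1 M * (As (1 / 2) * 4)) * ν), mul_pow]
      exact Real.sqrt_le_sqrt ((hWle t).trans (hcon t ⟨hta.trans_le ht.1, ht.2⟩))
    have h2 : (2 * x) ^ ((5 : ℝ) / 2 - 1 / 2) = 4 * x ^ 2 := by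
      have : ((5 : ℝ) / 2 - 1 / 2) = ((2 : ℕ) : ℝ) := by norm_num
      rw [this, Real.rpow_natCast]
      ring
    rw [h2, add_zero]
    calc C1 M * (As (1 / 2) * (4 * x ^ 2) * Real.sqrt (W t))
        ≤ C1 M * (As (1 / 2) * (4 * x ^ 2) * (1 / (C1 M * (As (1 / 2) * 4)) * ν)) := by gcongr
      _ = ν * x ^ 2 := by field_simp
  · simp only [intervalIntegral.integral_zero]
    have := Real.log_nonneg hK1
    positivity

end Pool.Agent.Q63.Win
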