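import Pool.Agent.Q63.Win.Core
import Pool.Agent.H459R3.NS.Phys2

/-!
The quadratic term of the Navier-Stokes equations in weighted `ℓ²` spaces of Fourier coefficients.
-/

open Set Filter Topology
open scoped ENNReal

namespace Pool.Agent.Q63.Win

open H459R3.NS

/-- Families of Fourier coefficients of vector fields. -/
abbrev Fam := K3 → Fin 3 → ℂ

/-- the length of the coefficient -/
noncomputable def amp (c : Fam) (k : K3) : ℝ := Real.sqrt (∑ i, ‖c k i‖ ^ 2)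

theorem amp_nonneg (c : Fam) (k : K3) : 0 ≤ amp c k := Real.sqrt_nonneg _

theorem amp_sq (c : Fam) (k : K3) : amp c k ^ 2 = ∑ i, ‖c k i‖ ^ 2 :=
  Real.sq_sqrt (Finset.sum_nonneg fun _ _ => by positivity)

theorem norm_le_amp (c : Fam) (k : K3) (i : Fin 3) : ‖c k i‖ ≤ amp c k := by
  refine Real.le_sqrt_of_sq_le ?_
  exact Finset.single_le_sum (f := fun i => ‖c k i‖ ^ 2) (fun _ _ => by positivity)
    (Finset.mem_univ i)

/-- rapidly decreasing -/
def RapV (c : Fam) : Prop := ∀ n : ℕ, ∃ M, ∀ k i, (1 + (N k : ℝ)) ^ n * ‖c k i‖ ≤ M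

theorem amp_le {c : Fam} {k : K3} {b : ℝ} (h : ∀ i, ‖c k i‖ ≤ b) : amp c k ≤ 2 * b := by
  have hb : 0 ≤ b := (norm_nonneg _).trans (h 0)
  refine Real.sqrt_le_iff.2 ⟨by positivity, ?_⟩
  calc ∑ i, ‖c k i‖ ^ 2 ≤ ∑ _i : Fin 3, b ^ 2 :=
        Finset.sum_le_sum fun i _ => pow_le_pow_left₀ (norm_nonneg _) (h i) 2
    _ = 3 * b ^ 2 := by simp
    _ ≤ (2 * b) ^ 2 := by nlinarith [sq_nonneg b]

theorem RapV.amp {c : Fam} (h : RapV c) (n : ℕ) :
    ∃ M, 0 ≤ M ∧ ∀ k, (1 + (N k : ℝ)) ^ n * amp c k ≤ M := by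
  obtain ⟨M, hM⟩ := h n
  refine ⟨2 * |M|, by positivity, fun k => ?_⟩
  have hp : (0 : ℝ) < (1 + (N k : ℝ)) ^ n := by positivity
  have h1 : ∀ i, ‖c k i‖ ≤ |M| / (1 + (N k : ℝ)) ^ n := fun i => by
    rw [le_div_iff₀ hp, mul_comm]
    exact (hM k i).trans (le_abs_self _)
  have h2 := amp_le h1
  calc (1 + (N k : ℝ)) ^ n * Win.amp c k ≤ (1 + (N k : ℝ)) ^ n * (2 * (|M| / (1 + (N k : ℝ)) ^ n)) := by
        gcongr
    _ = 2 * |M| := by field_simp

theorem summable_inv6 : Summable fun k : K3 => ((1 + (N k : ℝ)) ^ 6)⁻¹ := by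
  refine Summable.of_nonneg_of_le (fun k => by positivity) (fun k => ?_) summable_K3
  have h0 := one_add_sq_le k 0
  have h1' := one_add_sq_le k 1
  have h2' := one_add_sq_le k 2
  have hprod : (1 + (k 0 : ℝ) ^ 2) * ((1 + (k 1 : ℝ) ^ 2) * (1 + (k 2 : ℝ) ^ 2))
      ≤ (1 + (N k : ℝ)) ^ 6 := by
    calc (1 + (k 0 : ℝ) ^ 2) * ((1 + (k 1 : ℝ) ^ 2) * (1 + (k 2 : ℝ) ^ 2))
        ≤ (1 + (N k : ℝ)) ^ 2 * ((1 + (N k : ℝ)) ^ 2 * (1 + (N k : ℝ)) ^ 2) := by gcongr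
      _ = _ := by ring
  have e : (1 / (1 + (k 0 : ℝ) ^ 2)) * ((1 / (1 + (k 1 : ℝ) ^ 2)) * (1 / (1 + (k 2 : ℝ) ^ 2)))
      = ((1 + (k 0 : ℝ) ^ 2) * ((1 + (k 1 : ℝ) ^ 2) * (1 + (k 2 : ℝ) ^ 2)))⁻¹ := by
    field_simp
  rw [e]
  exact inv_anti₀ (by positivity) hprod

/-- Rapidly decreasing nonnegative families, scalar version. -/
def RapR (w : K3 → ℝ) : Prop := ∀ n : ℕ, ∃ M, 0 ≤ M ∧ ∀ k, (1 + (N k : ℝ)) ^ n * |w k| ≤ M

theorem RapR.summable {w : K3 → ℝ} (h : RapR w) (n : ℕ) :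
    Summable fun k => (1 + (N k : ℝ)) ^ n * |w k| := by
  obtain ⟨M, hM0, hM⟩ := h (n + 6)
  refine Summable.of_nonneg_of_le (fun k => by positivity) (fun k => ?_)
    (summable_inv6.mul_left M)
  have hp : (0 : ℝ) < (1 + (N k : ℝ)) ^ 6 := by positivity
  rw [← div_eq_mul_inv, le_div_iff₀ hp]
  calc (1 + (N k : ℝ)) ^ n * |w k| * (1 + (N k : ℝ)) ^ 6
      = (1 + (N k : ℝ)) ^ (n + 6) * |w k| := by rw [pow_add]; ring
    _ ≤ M := hM k

theorem RapV.rapR {c : Fam} (h : RapV c) : RapR (Win.amp c) := by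
  intro n
  obtain ⟨M, hM0, hM⟩ := h.amp n
  refine ⟨M, hM0, fun k => ?_⟩
  rw [abs_of_nonneg (amp_nonneg c k)]
  exact hM k

/-- polynomially bounded weights -/
def Pol (φ : K3 → ℝ) : Prop := ∃ (C : ℝ) (d : ℕ), 0 ≤ C ∧ ∀ k, |φ k| ≤ C * (1 + (N k : ℝ)) ^ d

theorem RapR.mul_pol {w φ : K3 → ℝ} (h : RapR w) (hφ : Pol φ) : RapR (fun k => φ k * w k) := by
  intro n
  obtain ⟨C, d, hC, hφ⟩ := hφ
  obtain ⟨M, hM0, hM⟩ := h (n + d)
  refine ⟨C * M, by positivity, fun k => ?_⟩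
  rw [abs_mul]
  calc (1 + (N k : ℝ)) ^ n * (|φ k| * |w k|)
      ≤ (1 + (N k : ℝ)) ^ n * (C * (1 + (N k : ℝ)) ^ d * |w k|) := by
        have := hφ k
        gcongr
    _ = C * ((1 + (N k : ℝ)) ^ (n + d) * |w k|) := by rw [pow_add]; ring
    _ ≤ C * M := by
        have := hM k
        gcongr

theorem RapR.bdd {w : K3 → ℝ} (h : RapR w) : ∃ M, 0 ≤ M ∧ ∀ k, |w k| ≤ M := by
  obtain ⟨M, hM0, hM⟩ := h 0
  exact ⟨M, hM0, fun k => by simpa using hM k⟩

theorem RapR.summable' {w : K3 → ℝ} (h : RapR w) : Summable w := by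
  have := h.summable 0
  simp only [pow_zero, one_mul] at this
  exact Summable.of_norm this

theorem RapR.mul {v w : K3 → ℝ} (h : RapR v) (h' : RapR w) : RapR (fun k => v k * w k) := by
  intro n
  obtain ⟨C, hC, hv⟩ := h.bdd
  obtain ⟨M, hM0, hM⟩ := h' n
  refine ⟨C * M, by positivity, fun k => ?_⟩
  rw [abs_mul]
  calc (1 + (N k : ℝ)) ^ n * (|v k| * |w k|) = |v k| * ((1 + (N k : ℝ)) ^ n * |w k|) := by ring
    _ ≤ C * M := by
        have := hv k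
        have := hM k
        gcongr

/-- the Fourier coefficients of `(u · ∇) u` -/
noncomputable def NL (c : Fam) (k : K3) (i : Fin 3) : ℂ :=
  ∑' q : K3, ∑ j, c (k - q) j * (2 * Real.pi * Complex.I * (q j : ℂ)) * c q i

/-- one term of the trilinear form -/
noncomputable def tg (c : Fam) (k q : K3) : ℂ :=
  2 * Real.pi * Complex.I * (∑ j, c (k - q) j * (q j : ℂ)) *
    ∑ i, c q i * (starRingEnd ℂ) (c k i)

theorem abs_coord_le (k : K3) (j : Fin 3) : |(k j : ℝ)| ≤ N k := by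
  have h := (N_le_iff k (N k)).1 le_rfl j
  exact_mod_cast h

theorem norm_sum_mul_le (a b : Fin 3 → ℂ) :
    ‖∑ i, a i * b i‖ ≤ Real.sqrt (∑ i, ‖a i‖ ^ 2) * Real.sqrt (∑ i, ‖b i‖ ^ 2) := by
  refine (norm_sum_le _ _).trans ?_
  simp_rw [norm_mul]
  exact Real.sum_mul_le_sqrt_mul_sqrt _ _ _

theorem norm_div_le (c : Fam) (p q : K3) : ‖∑ j, c p j * (q j : ℂ)‖ ≤ amp c p * (2 * N q) := by
  refine (norm_sum_mul_le _ _).trans ?_
  refine mul_le_mul_of_nonneg_left ?_ (amp_nonneg c p)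
  refine Real.sqrt_le_iff.2 ⟨by positivity, ?_⟩
  calc ∑ i, ‖(q i : ℂ)‖ ^ 2 ≤ ∑ _i : Fin 3, (N q : ℝ) ^ 2 := by
        refine Finset.sum_le_sum fun i _ => ?_
        refine pow_le_pow_left₀ (norm_nonneg _) ?_ 2
        rw [Complex.norm_intCast]
        exact abs_coord_le q i
    _ = 3 * (N q : ℝ) ^ 2 := by simp
    _ ≤ (2 * N q) ^ 2 := by nlinarith [sq_nonneg (N q : ℝ)]

theorem div_shift {c : Fam} (hdiv : ∀ k, ∑ i, (k i : ℂ) * c k i = 0) (k q : K3) :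
    ∑ j, c (k - q) j * (q j : ℂ) = ∑ j, c (k - q) j * (k j : ℂ) := by
  have h := hdiv (k - q)
  have e : ∑ j, c (k - q) j * (k j : ℂ) - ∑ j, c (k - q) j * (q j : ℂ)
      = ∑ i, ((k - q) i : ℂ) * c (k - q) i := by
    rw [← Finset.sum_sub_distrib]
    refine Finset.sum_congr rfl fun j _ => ?_
    simp only [Pi.sub_apply]
    push_cast
    ring
  have h' : ∑ i, (((k - q) i : ℤ) : ℂ) * c (k - q) i = 0 := h
  rw [h'] at e
  exact (sub_eq_zero.1 e).symm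

theorem norm_tg_le' (c : Fam) (k q : K3) :
    ‖tg c k q‖ ≤ 13 * N q * (amp c (k - q) * amp c q * amp c k) := by
  unfold tg
  rw [norm_mul, norm_mul]
  have h1 := norm_div_le c (k - q) q
  have h2 : ‖∑ i, c q i * (starRingEnd ℂ) (c k i)‖ ≤ amp c q * amp c k := by
    refine (norm_sum_mul_le _ _).trans (le_of_eq ?_)
    simp_rw [RCLike.norm_conj]
    rfl
  have h3 : ‖2 * (Real.pi : ℂ) * Complex.I‖ = 2 * Real.pi := by
    rw [norm_mul, norm_mul, Complex.norm_I, Complex.norm_real, Real.norm_eq_abs,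
      abs_of_pos Real.pi_pos]
    simp
  rw [h3]
  have hpi : Real.pi ≤ 3.15 := Real.pi_lt_d2.le
  have a1 := amp_nonneg c (k - q)
  have a2 := amp_nonneg c q
  have a3 := amp_nonneg c k
  have := Real.pi_pos
  calc 2 * Real.pi * ‖∑ j, c (k - q) j * (q j : ℂ)‖ * ‖∑ i, c q i * (starRingEnd ℂ) (c k i)‖
      ≤ 2 * 3.15 * (amp c (k - q) * (2 * N q)) * (amp c q * amp c k) := by gcongr
    _ = 12.6 * N q * (amp c (k - q) * amp c q * amp c k) := by ring
    _ ≤ 13 * N q * (amp c (k - q) * amp c q * amp c k) := by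
        gcongr
        norm_num

theorem norm_tg_le {c : Fam} (hdiv : ∀ k, ∑ i, (k i : ℂ) * c k i = 0) (k q : K3) :
    ‖tg c k q‖ ≤ 13 * (min (N k : ℝ) (N q) * (amp c (k - q) * amp c q * amp c k)) := by
  rcases le_total (N q : ℝ) (N k) with h | h
  · rw [min_eq_right h]
    refine (norm_tg_le' c k q).trans (le_of_eq (by ring))
  · rw [min_eq_left h]
    unfold tg
    rw [div_shift hdiv, norm_mul, norm_mul]
    have h1 := norm_div_le c (k - q) k
    have h2 : ‖∑ i, c q i * (starRingEnd ℂ) (c k i)‖ ≤ amp c q * amp c k := by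
      refine (norm_sum_mul_le _ _).trans (le_of_eq ?_)
      simp_rw [RCLike.norm_conj]
      rfl
    have h3 : ‖2 * (Real.pi : ℂ) * Complex.I‖ = 2 * Real.pi := by
      rw [norm_mul, norm_mul, Complex.norm_I, Complex.norm_real, Real.norm_eq_abs,
        abs_of_pos Real.pi_pos]
      simp
    rw [h3]
    have hpi : Real.pi ≤ 3.15 := Real.pi_lt_d2.le
    have a1 := amp_nonneg c (k - q)
    have a2 := amp_nonneg c q
    have a3 := amp_nonneg c k
    have := Real.pi_pos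
    calc 2 * Real.pi * ‖∑ j, c (k - q) j * (k j : ℂ)‖ * ‖∑ i, c q i * (starRingEnd ℂ) (c k i)‖
        ≤ 2 * 3.15 * (amp c (k - q) * (2 * N k)) * (amp c q * amp c k) := by gcongr
      _ = 12.6 * (N k * (amp c (k - q) * amp c q * amp c k)) := by ring
      _ ≤ 13 * (N k * (amp c (k - q) * amp c q * amp c k)) := by
          gcongr
          norm_num

theorem tg_swap {c : Fam} (hreal : ∀ k i, c (-k) i = (starRingEnd ℂ) (c k i))
    (hdiv : ∀ k, ∑ i, (k i : ℂ) * c k i = 0) (k q : K3) :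
    tg c q k = -(starRingEnd ℂ) (tg c k q) := by
  have e1 : ∑ j, c (q - k) j * (k j : ℂ) = (starRingEnd ℂ) (∑ j, c (k - q) j * (q j : ℂ)) := by
    rw [div_shift hdiv, map_sum]
    refine Finset.sum_congr rfl fun j _ => ?_
    rw [map_mul, ← hreal, neg_sub, map_intCast]
  have e4 : ∑ i, c k i * (starRingEnd ℂ) (c q i)
      = (starRingEnd ℂ) (∑ i, c q i * (starRingEnd ℂ) (c k i)) := by
    rw [map_sum]
    refine Finset.sum_congr rfl fun i _ => ?_
    rw [map_mul, Complex.conj_conj, mul_comm]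
  have e3 : (starRingEnd ℂ) 2 = 2 := Complex.conj_ofNat 2
  unfold tg
  rw [e1, e4]
  simp only [map_mul, Complex.conj_I, Complex.conj_ofReal, e3]
  ring

end Pool.Agent.Q63.Win
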