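import Pool.Agent.Q63.Win.TriB

/-!
Evolution of weighted energies of solutions written with Fourier coefficients.
-/

open Set Filter Topology
open scoped ENNReal

namespace Pool.Agent.Q63.Win

open H459R3.NS

/-- Families of Fourier coefficients of smooth real divergence-free fields which solve
`∂ₜ u + (u · ∇) u + ∇ p = - m(D) u` on `(0, T)`: only the consequence for the amplitude of each
coefficient is recorded. -/
structure FSol (m : K3 → ℝ) (T : ℝ) (c : ℝ → Fam) : Prop where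
  rap : ∀ n : ℕ, ∀ a b : ℝ, 0 < a → b < T →
    ∃ M, ∀ t ∈ Icc a b, ∀ k i, (1 + (N k : ℝ)) ^ n * ‖c t k i‖ ≤ M
  real : ∀ t ∈ Ioo 0 T, ∀ k i, c t (-k) i = (starRingEnd ℂ) (c t k i)
  div : ∀ t ∈ Ioo 0 T, ∀ k, ∑ i, (k i : ℂ) * c t k i = 0
  esq : ∀ t ∈ Ioo 0 T, ∀ k, HasDerivAt (fun s => amp (c s) k ^ 2)
    (-(2 * m k * amp (c t) k ^ 2) - 2 * (∑ i, (starRingEnd ℂ) (c t k i) * NL (c t) k i).re) t

/-- weighted energy -/
noncomputable def XX (φ w : K3 → ℝ) : ℝ := ∑' k, φ k * w k ^ 2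

theorem XX_summable {φ w : K3 → ℝ} (hP : Pol φ) (h : RapR w) :
    Summable fun k => φ k * w k ^ 2 := by
  have h1 : Summable fun k => φ k * (w k * w k) := ((h.mul h).mul_pol hP).summable'
  refine h1.congr fun k => ?_
  rw [sq]

theorem XX_nonneg {φ w : K3 → ℝ} (hφ : ∀ k, 0 ≤ φ k) : 0 ≤ XX φ w :=
  tsum_nonneg fun k => mul_nonneg (hφ k) (sq_nonneg _)

section

variable {m : K3 → ℝ} {T : ℝ} {c : ℝ → Fam}

theorem FSol.rapV (h : FSol m T c) {t : ℝ} (ht : t ∈ Ioo 0 T) : RapV (c t) := by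
  intro n
  obtain ⟨M, hM⟩ := h.rap n t t ht.1 ht.2
  exact ⟨M, fun k i => hM t ⟨le_rfl, le_rfl⟩ k i⟩

theorem FSol.unif (h : FSol m T c) (n : ℕ) {a b : ℝ} (ha : 0 < a) (hb : b < T) :
    ∃ M, 0 ≤ M ∧ ∀ t ∈ Icc a b, ∀ k, amp (c t) k ≤ M * ((1 + (N k : ℝ)) ^ n)⁻¹ := by
  obtain ⟨M, hM⟩ := h.rap n a b ha hb
  refine ⟨2 * |M|, by positivity, fun t ht k => ?_⟩
  have hp : (0 : ℝ) < (1 + (N k : ℝ)) ^ n := by positivity
  have h1 : ∀ i, ‖c t k i‖ ≤ |M| / (1 + (N k : ℝ)) ^ n := fun i => by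
    rw [le_div_iff₀ hp, mul_comm]
    exact (hM t ht k i).trans (le_abs_self _)
  refine (amp_le h1).trans (le_of_eq ?_)
  rw [div_eq_mul_inv]
  ring

theorem abs_re_le {c : Fam} (hc : RapV c) {M : ℝ} (hM0 : 0 ≤ M)
    (hM : ∀ k, amp c k ≤ M * ((1 + (N k : ℝ)) ^ 7)⁻¹) (k : K3) :
    |(∑ i, (starRingEnd ℂ) (c k i) * NL c k i).re|
      ≤ 13 * M * M * (∑' k : K3, ((1 + (N k : ℝ)) ^ 6)⁻¹) * amp c k := by
  have h1 := hasSum_tg hc k
  have hb : ∀ q, ‖tg c k q‖ ≤ 13 * M * M * amp c k * ((1 + (N q : ℝ)) ^ 6)⁻¹ := by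
    intro q
    refine (norm_tg_le' c k q).trans ?_
    have a1 : amp c (k - q) ≤ M := by
      refine (hM _).trans ?_
      have : ((1 + (N (k - q) : ℝ)) ^ 7)⁻¹ ≤ 1 := by
        apply inv_le_one_of_one_le₀
        apply one_le_pow₀
        linarith [(Nat.cast_nonneg (N (k - q)) : (0 : ℝ) ≤ _)]
      nlinarith
    have a2 := hM q
    have a3 := amp_nonneg c k
    have a4 := amp_nonneg c q
    have a5 := amp_nonneg c (k - q)
    have hNq : (N q : ℝ) * ((1 + (N q : ℝ)) ^ 7)⁻¹ ≤ ((1 + (N q : ℝ)) ^ 6)⁻¹ := by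
      have hN : (0 : ℝ) ≤ N q := Nat.cast_nonneg _
      rw [← div_eq_mul_inv, div_le_iff₀ (by positivity), pow_succ (1 + (N q : ℝ)) 6,
        ← mul_assoc, inv_mul_cancel₀ (by positivity)]
      linarith
    calc 13 * N q * (amp c (k - q) * amp c q * amp c k)
        ≤ 13 * N q * (M * (M * ((1 + (N q : ℝ)) ^ 7)⁻¹) * amp c k) := by gcongr
      _ = 13 * M * M * amp c k * (N q * ((1 + (N q : ℝ)) ^ 7)⁻¹) := by ring
      _ ≤ 13 * M * M * amp c k * ((1 + (N q : ℝ)) ^ 6)⁻¹ := by gcongr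
  have hs := summable_inv6.mul_left (13 * M * M * amp c k)
  have h2 : ‖∑ i, (starRingEnd ℂ) (c k i) * NL c k i‖ ≤
      ∑' q : K3, 13 * M * M * amp c k * ((1 + (N q : ℝ)) ^ 6)⁻¹ := by
    rw [← h1.tsum_eq]
    exact tsum_of_norm_bounded hs.hasSum hb
  rw [tsum_mul_left] at h2
  refine (Complex.abs_re_le_norm _).trans (h2.trans (le_of_eq (by ring)))

/-- The evolution of a weighted energy. -/
theorem FSol.hasDerivAt_XX (h : FSol m T c) (hm : Pol m) {φ : K3 → ℝ} (hφ : Pol φ) {t : ℝ}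
    (ht : t ∈ Ioo 0 T) :
    HasDerivAt (fun s => XX φ (amp (c s)))
      (-(2 * XX (fun k => φ k * m k) (amp (c t))) - 2 * prod φ (c t)) t := by
  obtain ⟨a, ha1, ha2⟩ := exists_between ht.1
  obtain ⟨b, hb1, hb2⟩ := exists_between ht.2
  obtain ⟨Cφ, dφ, hCφ, hφb⟩ := hφ
  obtain ⟨Cm, dm, hCm, hmb⟩ := hm
  obtain ⟨M7, hM70, hM7⟩ := h.unif 7 ha1 hb2
  obtain ⟨M1, hM10, hM1⟩ := h.unif (dφ + dm + 6) ha1 hb2
  set Z : ℝ := ∑' k : K3, ((1 + (N k : ℝ)) ^ 6)⁻¹ with hZ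
  have hZ0 : 0 ≤ Z := tsum_nonneg fun k => by positivity
  have hsubI : Ioo a b ⊆ Icc a b := Ioo_subset_Icc_self
  have hsubT : Ioo a b ⊆ Ioo 0 T := fun s hs => ⟨ha1.trans hs.1, hs.2.trans hb2⟩
  have key := hasDerivAt_tsum_of_isPreconnected (𝕜 := ℝ) (t := Ioo a b) (y₀ := t) (y := t)
    (g := fun k s => φ k * amp (c s) k ^ 2)
    (g' := fun k s => φ k * (-(2 * m k * amp (c s) k ^ 2)
      - 2 * (∑ i, (starRingEnd ℂ) (c s k i) * NL (c s) k i).re))
    (u := fun k => (Cφ * (2 * Cm * M7 + 2 * (13 * M7 * M7 * Z)) * M1) *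
      ((1 + (N k : ℝ)) ^ 6)⁻¹)
    (summable_inv6.mul_left _) isOpen_Ioo isPreconnected_Ioo ?_ ?_ ⟨ha2, hb1⟩ ?_ ⟨ha2, hb1⟩
  · have e : (∑' k, φ k * (-(2 * m k * amp (c t) k ^ 2)
        - 2 * (∑ i, (starRingEnd ℂ) (c t k i) * NL (c t) k i).re))
        = -(2 * XX (fun k => φ k * m k) (amp (c t))) - 2 * prod φ (c t) := by
      have hR := (h.rapV ht).rapR
      have s1 : Summable fun k => φ k * m k * amp (c t) k ^ 2 := by
        refine XX_summable ⟨Cφ * Cm, dφ + dm, by positivity, fun k => ?_⟩ hR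
        rw [abs_mul, pow_add]
        calc |φ k| * |m k| ≤ (Cφ * (1 + (N k : ℝ)) ^ dφ) * (Cm * (1 + (N k : ℝ)) ^ dm) :=
              mul_le_mul (hφb k) (hmb k) (abs_nonneg _) (by positivity)
          _ = _ := by ring
      have s2 : Summable fun k => φ k * (∑ i, (starRingEnd ℂ) (c t k i) * NL (c t) k i).re := by
        have h1 : Summable fun k => φ k * amp (c t) k :=
          (hR.mul_pol ⟨Cφ, dφ, hCφ, hφb⟩).summable'
        refine Summable.of_norm_bounded (h1.abs.mul_left (13 * M7 * M7 * Z)) fun k => ?_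
        have h2 := abs_re_le (h.rapV ht) hM70 (hM7 t ⟨ha2.le, hb1.le⟩) k
        rw [norm_mul, Real.norm_eq_abs, Real.norm_eq_abs, abs_mul, abs_of_nonneg (amp_nonneg _ k)]
        calc |φ k| * |(∑ i, (starRingEnd ℂ) (c t k i) * NL (c t) k i).re|
            ≤ |φ k| * (13 * M7 * M7 * Z * amp (c t) k) := by gcongr
          _ = _ := by ring
      have e1 : ∀ k, φ k * (-(2 * m k * amp (c t) k ^ 2)
          - 2 * (∑ i, (starRingEnd ℂ) (c t k i) * NL (c t) k i).re)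
          = -(2 * (φ k * m k * amp (c t) k ^ 2)) -
            2 * (φ k * (∑ i, (starRingEnd ℂ) (c t k i) * NL (c t) k i).re) := by
        intro k; ring
      simp_rw [e1]
      rw [((s1.mul_left 2).neg).tsum_sub (s2.mul_left 2), tsum_neg, tsum_mul_left, tsum_mul_left]
      rfl
    rw [← e]
    exact key
  · intro k s hs
    exact (h.esq s (hsubT hs) k).const_mul (φ k)
  · intro k s hs
    have h2 := abs_re_le (h.rapV (hsubT hs)) hM70 (hM7 s (hsubI hs)) k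
    have h3 := hM1 s (hsubI hs) k
    have h4 := amp_nonneg (c s) k
    have h5 : amp (c s) k ≤ M7 := by
      refine (hM7 s (hsubI hs) k).trans ?_
      have : ((1 + (N k : ℝ)) ^ 7)⁻¹ ≤ 1 := by
        apply inv_le_one_of_one_le₀
        apply one_le_pow₀
        linarith [(Nat.cast_nonneg (N k) : (0 : ℝ) ≤ _)]
      nlinarith
    have hone : (1 : ℝ) ≤ (1 + (N k : ℝ)) ^ dm := by
      apply one_le_pow₀
      linarith [(Nat.cast_nonneg (N k) : (0 : ℝ) ≤ _)]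
    rw [norm_mul, Real.norm_eq_abs, Real.norm_eq_abs]
    have h6 : |-(2 * m k * amp (c s) k ^ 2)
        - 2 * (∑ i, (starRingEnd ℂ) (c s k i) * NL (c s) k i).re|
        ≤ (2 * Cm * M7 + 2 * (13 * M7 * M7 * Z)) * (1 + (N k : ℝ)) ^ dm * amp (c s) k := by
      refine (abs_sub _ _).trans ?_
      rw [abs_neg, abs_mul, abs_mul, abs_mul, abs_of_pos (two_pos : (0 : ℝ) < 2),
        abs_of_nonneg (sq_nonneg (amp (c s) k))]
      calc 2 * |m k| * amp (c s) k ^ 2 + 2 * |(∑ i, (starRingEnd ℂ) (c s k i) * NL (c s) k i).re|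
          ≤ 2 * (Cm * (1 + (N k : ℝ)) ^ dm) * (M7 * amp (c s) k)
            + 2 * (13 * M7 * M7 * Z * amp (c s) k) := by
            gcongr
            · exact hmb k
            · rw [sq]; gcongr
        _ = 2 * Cm * M7 * (1 + (N k : ℝ)) ^ dm * amp (c s) k
            + 2 * (13 * M7 * M7 * Z) * 1 * amp (c s) k := by ring
        _ ≤ 2 * Cm * M7 * (1 + (N k : ℝ)) ^ dm * amp (c s) k
            + 2 * (13 * M7 * M7 * Z) * (1 + (N k : ℝ)) ^ dm * amp (c s) k := by gcongr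
        _ = _ := by ring
    calc |φ k| * |-(2 * m k * amp (c s) k ^ 2)
        - 2 * (∑ i, (starRingEnd ℂ) (c s k i) * NL (c s) k i).re|
        ≤ (Cφ * (1 + (N k : ℝ)) ^ dφ) * ((2 * Cm * M7 + 2 * (13 * M7 * M7 * Z)) *
          (1 + (N k : ℝ)) ^ dm * (M1 * ((1 + (N k : ℝ)) ^ (dφ + dm + 6))⁻¹)) := by
          refine mul_le_mul (hφb k) (h6.trans ?_) (abs_nonneg _) (by positivity)
          gcongr
      _ = (Cφ * (2 * Cm * M7 + 2 * (13 * M7 * M7 * Z)) * M1) * ((1 + (N k : ℝ)) ^ 6)⁻¹ := by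
          rw [pow_add, pow_add]
          field_simp
  · exact XX_summable ⟨Cφ, dφ, hCφ, hφb⟩ (h.rapV ht).rapR

end

end Pool.Agent.Q63.Win
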