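import Pool.Agent.Q63.Win.Weight
import Pool.Agent.Q63.Win.Lat
import Pool.Agent.Q63.Win.Evo

/-!
The differential inequality for the weighted energy.
-/

open Set Filter Topology
open scoped ENNReal

namespace Pool.Agent.Q63.Win

open H459R3.NS

/-- `∑ |l|^(2 s) w(l)²` over the window `κ < |l| ≤ K`. -/
noncomputable def winS (s : ℝ) (κ K : ℕ) (w : K3 → ℝ) : ℝ :=
  ∑ l ∈ box K \ box κ, (N l : ℝ) ^ (2 * s) * w l ^ 2

theorem winS_nonneg (s : ℝ) (κ K : ℕ) (w : K3 → ℝ) : 0 ≤ winS s κ K w :=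
  Finset.sum_nonneg fun _ _ => by positivity

/-- the constant of the Cauchy-Schwarz inequality -/
noncomputable def As (s : ℝ) : ℝ := Real.sqrt (26 / min (5 - 2 * s) 1)

theorem As_nonneg (s : ℝ) : 0 ≤ As s := Real.sqrt_nonneg _

theorem Sn_bound {w : K3 → ℝ} (hw : ∀ k, 0 ≤ w k) (hr : RapR w) {M K κ : ℕ} (hM : 1 ≤ M)
    (hK : 1 ≤ K) {E : ℝ} (hE0 : 0 ≤ E)
    (hE : XX (fun _ => 1) w ≤ E ^ 2) {s : ℝ} (hs : s < 5 / 2) (R : ℕ) :
    Sn w R ≤ As 0 * (κ : ℝ) ^ (5 / 2 : ℝ) * E + As s * (R : ℝ) ^ (5 / 2 - s) *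
      Real.sqrt (winS s κ K w) + As (1 / 2) * (R : ℝ) ^ (2 : ℝ) * Real.sqrt (XX (phi M K) w) := by
  classical
  set F1 := ((box R).filter fun l => N l ≤ κ).erase 0 with hF1
  set F2 := (box R).filter fun l => κ < N l ∧ N l ≤ K with hF2
  set F3 := (box R).filter fun l => κ < N l ∧ K < N l with hF3
  have hterm : ∀ l, 0 ≤ (N l : ℝ) * w l := fun l => mul_nonneg (Nat.cast_nonneg _) (hw l)
  have hsplit : Sn w R = ∑ l ∈ F1, (N l : ℝ) * w l + ∑ l ∈ F2, (N l : ℝ) * w l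
      + ∑ l ∈ F3, (N l : ℝ) * w l := by
    unfold Sn
    rw [← Finset.sum_filter_add_sum_filter_not (box R) (fun l => N l ≤ κ)]
    have e1 : ∑ l ∈ (box R).filter (fun l => N l ≤ κ), (N l : ℝ) * w l
        = ∑ l ∈ F1, (N l : ℝ) * w l := by
      rw [hF1, Finset.sum_erase]
      rw [N_eq_zero.2 rfl]
      simp
    rw [e1, ← Finset.sum_filter_add_sum_filter_not ((box R).filter fun l => ¬N l ≤ κ)
      (fun l => N l ≤ K), Finset.filter_filter, Finset.filter_filter, ← add_assoc]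
    congr 1
    · congr 1
      refine Finset.sum_congr ?_ fun _ _ => rfl
      ext l
      simp only [hF2, Finset.mem_filter, not_le]
    · refine Finset.sum_congr ?_ fun _ _ => rfl
      ext l
      simp only [hF3, Finset.mem_filter, not_le]
  rw [hsplit]
  have s1 : Summable fun k => w k ^ 2 := by
    have := XX_summable (φ := fun _ => (1 : ℝ)) ⟨1, 0, zero_le_one, fun k => by simp⟩ hr
    simpa using this
  have b1 : ∑ l ∈ F1, (N l : ℝ) * w l ≤ As 0 * (κ : ℝ) ^ (5 / 2 : ℝ) * E := by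
    have h := cs_sum (w := w) (F := F1) (R := κ) (s := 0) (Bd := E) (fun l hl => by
        rw [hF1, Finset.mem_erase, Finset.mem_filter] at hl
        exact mem_box.2 hl.2.2) (Finset.notMem_erase _ _) (by norm_num) ?_ hE0
    · rw [sub_zero] at h
      exact h
    · refine le_trans ?_ hE
      unfold XX
      simp only [mul_zero, Real.rpow_zero, one_mul]
      exact s1.sum_le_tsum _ fun _ _ => sq_nonneg _
  have b2 : ∑ l ∈ F2, (N l : ℝ) * w l
      ≤ As s * (R : ℝ) ^ (5 / 2 - s) * Real.sqrt (winS s κ K w) := by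
    refine cs_sum (w := w) (F := F2) (R := R) (s := s) (Bd := Real.sqrt (winS s κ K w))
      (Finset.filter_subset _ _) (fun h => ?_) hs ?_ (Real.sqrt_nonneg _)
    · rw [hF2, Finset.mem_filter, N_eq_zero.2 rfl] at h
      exact absurd h.2.1 (Nat.not_lt_zero _)
    · rw [Real.sq_sqrt (winS_nonneg _ _ _ _)]
      unfold winS
      refine Finset.sum_le_sum_of_subset_of_nonneg (fun l hl => ?_) fun _ _ _ => by positivity
      rw [hF2, Finset.mem_filter] at hl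
      rw [Finset.mem_sdiff, mem_box, mem_box, not_le]
      exact ⟨hl.2.2, hl.2.1⟩
  have hwt := wt_phi hM hK
  have b3 : ∑ l ∈ F3, (N l : ℝ) * w l
      ≤ As (1 / 2) * (R : ℝ) ^ (2 : ℝ) * Real.sqrt (XX (phi M K) w) := by
    have h := cs_sum (w := w) (F := F3) (R := R) (s := 1 / 2) (Bd := Real.sqrt (XX (phi M K) w))
      (Finset.filter_subset _ _) (fun h => ?_) (by norm_num) ?_ (Real.sqrt_nonneg _)
    · have e : (5 / 2 - 1 / 2 : ℝ) = 2 := by norm_num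
      rw [e] at h
      exact h
    · rw [hF3, Finset.mem_filter, N_eq_zero.2 rfl] at h
      exact absurd h.2.1 (Nat.not_lt_zero _)
    · rw [Real.sq_sqrt (XX_nonneg hwt.nonneg)]
      have h1 : ∀ l ∈ F3, (N l : ℝ) ^ (2 * (1 / 2 : ℝ)) * w l ^ 2 = phi M K l * w l ^ 2 := by
        intro l hl
        rw [hF3, Finset.mem_filter] at hl
        unfold phi
        rw [ff_ge hK hl.2.2.le]
        norm_num
      rw [Finset.sum_congr rfl h1]
      unfold XX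
      exact (XX_summable (pol_phi hM hK) hr).sum_le_tsum _ fun l _ =>
        mul_nonneg (hwt.nonneg l) (sq_nonneg _)
  linarith

/-- The pointwise estimate of the production. -/
theorem diff_ineq {w : K3 → ℝ} (hw : ∀ k, 0 ≤ w k) (hr : RapR w) {M K κ L : ℕ} (hM : 1 ≤ M)
    (hK : 1 ≤ K) {E : ℝ} (hE0 : 0 ≤ E)
    (hE : XX (fun _ => 1) w ≤ E ^ 2) {s : ℝ} (hs : s < 5 / 2) {ν C₁ Bq : ℝ} (hν : 0 < ν)
    (hC₁ : 0 ≤ C₁) (hBq : 0 ≤ Bq)
    (h1 : C₁ * (As 0 * (κ : ℝ) ^ (5 / 2 : ℝ) * E) ≤ ν * (L : ℝ) ^ 2)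
    (h2 : ∀ x : ℝ, 0 ≤ x → C₁ * (As s * (2 * x) ^ (5 / 2 - s) * Real.sqrt (winS s κ K w))
      ≤ ν * x ^ 2 + Bq)
    (h3 : C₁ * (As (1 / 2) * 4 * Real.sqrt (XX (phi M K) w)) ≤ ν) :
    C₁ * QR (phi M K) w ≤ 3 * ν * XX (fun k => phi M K k * (N k : ℝ) ^ 2) w
      + Bq * XX (phi M K) w
      + C₁ * (As 0 * (κ : ℝ) ^ (5 / 2 : ℝ) * E) * ff M K L * E ^ 2 := by
  have hwt := wt_phi hM hK
  have hA0 := As_nonneg 0
  have hAs := As_nonneg s
  have hAh := As_nonneg (1 / 2)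
  have hκ : 0 ≤ (κ : ℝ) ^ (5 / 2 : ℝ) := by positivity
  have hffL := ff_nonneg (M := M) hK L
  have s0 : Summable fun k => (1 : ℝ) * w k ^ 2 :=
    XX_summable ⟨1, 0, zero_le_one, fun k => by simp⟩ hr
  have s1 := XX_summable (pol_phi hM hK) hr
  have s2 := XX_summable (pol_mul (pol_phi hM hK) (pol_pow 2)) hr
  have s3 := QR_term_summable hwt.nonneg (pol_phi hM hK) hr hw
  have key : ∀ k, C₁ * (phi M K k * w k ^ 2 * Sn w (2 * N k)) ≤
      3 * ν * (phi M K k * (N k : ℝ) ^ 2 * w k ^ 2) + Bq * (phi M K k * w k ^ 2)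
      + C₁ * (As 0 * (κ : ℝ) ^ (5 / 2 : ℝ) * E) * ff M K L * (1 * w k ^ 2) := by
    intro k
    have hb := Sn_bound hw hr (κ := κ) hM hK hE0 hE hs (2 * N k)
    have hφ := hwt.nonneg k
    have hx : (0 : ℝ) ≤ N k := Nat.cast_nonneg _
    have hcast : ((2 * N k : ℕ) : ℝ) = 2 * (N k : ℝ) := by push_cast; ring
    rw [hcast] at hb
    have h2' := h2 (N k) hx
    have h3' : C₁ * (As (1 / 2) * (2 * (N k : ℝ)) ^ (2 : ℝ) * Real.sqrt (XX (phi M K) w))
        ≤ ν * (N k : ℝ) ^ 2 := by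
      calc C₁ * (As (1 / 2) * (2 * (N k : ℝ)) ^ (2 : ℝ) * Real.sqrt (XX (phi M K) w))
          = C₁ * (As (1 / 2) * 4 * Real.sqrt (XX (phi M K) w)) * (N k : ℝ) ^ 2 := by
            rw [Real.rpow_two]
            ring
        _ ≤ ν * (N k : ℝ) ^ 2 := by gcongr
    have hS : C₁ * Sn w (2 * N k) ≤ C₁ * (As 0 * (κ : ℝ) ^ (5 / 2 : ℝ) * E)
        + (ν * (N k : ℝ) ^ 2 + Bq) + ν * (N k : ℝ) ^ 2 := by
      have := mul_le_mul_of_nonneg_left hb hC₁
      rw [mul_add, mul_add] at this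
      linarith
    have hw2 := sq_nonneg (w k)
    rcases le_or_gt L (N k) with hL | hL
    · have h1' : C₁ * (As 0 * (κ : ℝ) ^ (5 / 2 : ℝ) * E) ≤ ν * (N k : ℝ) ^ 2 := by
        refine h1.trans ?_
        have : (L : ℝ) ≤ N k := by exact_mod_cast hL
        gcongr
      have h5 : 0 ≤ C₁ * (As 0 * (κ : ℝ) ^ (5 / 2 : ℝ) * E) * ff M K L * (1 * w k ^ 2) := by
        positivity
      calc C₁ * (phi M K k * w k ^ 2 * Sn w (2 * N k))
          = phi M K k * w k ^ 2 * (C₁ * Sn w (2 * N k)) := by ring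
        _ ≤ phi M K k * w k ^ 2 * (3 * ν * (N k : ℝ) ^ 2 + Bq) := by
          gcongr
          linarith
        _ ≤ _ := by linarith
    · have h6 : phi M K k ≤ ff M K L := ff_mono hM hK hL.le
      calc C₁ * (phi M K k * w k ^ 2 * Sn w (2 * N k))
          = phi M K k * w k ^ 2 * (C₁ * Sn w (2 * N k)) := by ring
        _ ≤ phi M K k * w k ^ 2 * (C₁ * (As 0 * (κ : ℝ) ^ (5 / 2 : ℝ) * E)
            + (ν * (N k : ℝ) ^ 2 + Bq) + ν * (N k : ℝ) ^ 2) := by gcongr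
        _ = 2 * ν * (phi M K k * (N k : ℝ) ^ 2 * w k ^ 2) + Bq * (phi M K k * w k ^ 2)
            + C₁ * (As 0 * (κ : ℝ) ^ (5 / 2 : ℝ) * E) * phi M K k * w k ^ 2 := by ring
        _ ≤ 3 * ν * (phi M K k * (N k : ℝ) ^ 2 * w k ^ 2) + Bq * (phi M K k * w k ^ 2)
            + C₁ * (As 0 * (κ : ℝ) ^ (5 / 2 : ℝ) * E) * ff M K L * w k ^ 2 := by
          gcongr
          norm_num
        _ = _ := by ring
  unfold QR XX
  rw [← tsum_mul_left]
  have t1 := s2.mul_left (3 * ν)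
  have t2 := s1.mul_left Bq
  have t3 := s0.mul_left (C₁ * (As 0 * (κ : ℝ) ^ (5 / 2 : ℝ) * E) * ff M K L)
  calc ∑' k, C₁ * (phi M K k * w k ^ 2 * Sn w (2 * N k))
      ≤ ∑' k, (3 * ν * (phi M K k * (N k : ℝ) ^ 2 * w k ^ 2) + Bq * (phi M K k * w k ^ 2)
        + C₁ * (As 0 * (κ : ℝ) ^ (5 / 2 : ℝ) * E) * ff M K L * (1 * w k ^ 2)) :=
        (s3.mul_left C₁).tsum_le_tsum key ((t1.add t2).add t3)
    _ = 3 * ν * (∑' k, phi M K k * (N k : ℝ) ^ 2 * w k ^ 2) + Bq * (∑' k, phi M K k * w k ^ 2)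
        + C₁ * (As 0 * (κ : ℝ) ^ (5 / 2 : ℝ) * E) * ff M K L * ∑' k, 1 * w k ^ 2 := by
        rw [(t1.add t2).tsum_add t3, t1.tsum_add t2, tsum_mul_left, tsum_mul_left, tsum_mul_left]
    _ ≤ _ := by
        have : ∑' k, (1 : ℝ) * w k ^ 2 ≤ E ^ 2 := hE
        have h7 : 0 ≤ C₁ * (As 0 * (κ : ℝ) ^ (5 / 2 : ℝ) * E) * ff M K L := by positivity
        have := mul_le_mul_of_nonneg_left this h7
        linarith

end Pool.Agent.Q63.Win
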