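import Pool.Agent.Q63.Win.Diff

/-!
Barriers in time for the weighted energy.
-/

open MeasureTheory Set Filter Topology
open scoped ENNReal

namespace Pool.Agent.Q63.Win

open H459R3.NS

/-- the constant of the estimate of the production -/
noncomputable def C1 (M : ℕ) : ℝ := 13 * (8 * M * (1 + 2 ^ M))

theorem C1_nonneg (M : ℕ) : 0 ≤ C1 M := by unfold C1; positivity

section

variable {m : K3 → ℝ} {T ν : ℝ} {c : ℝ → Fam}

theorem FSol.deriv_le (h : FSol m T c) (hm : Pol m) (hmν : ∀ k, 36 * ν * (N k : ℝ) ^ 2 ≤ m k)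
    {M : ℕ} {φ : K3 → ℝ} (hφ : Wt M (2 ^ M) φ) (hP : Pol φ) {t : ℝ} (ht : t ∈ Ioo 0 T) :
    -(2 * XX (fun k => φ k * m k) (amp (c t))) - 2 * prod φ (c t)
      ≤ -(72 * ν * XX (fun k => φ k * (N k : ℝ) ^ 2) (amp (c t))) + C1 M * QR φ (amp (c t)) := by
  have hR := (h.rapV ht).rapR
  have h1 := prod_bound hφ hP (h.rapV ht) (h.real t ht) (h.div t ht)
  have h2 := (abs_le.1 h1).1
  have h3 : 36 * ν * XX (fun k => φ k * (N k : ℝ) ^ 2) (amp (c t))
      ≤ XX (fun k => φ k * m k) (amp (c t)) := by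
    unfold XX
    rw [← tsum_mul_left]
    refine Summable.tsum_le_tsum (fun k => ?_) ((XX_summable (pol_mul hP (pol_pow 2)) hR).mul_left _)
      (XX_summable (pol_mul hP hm) hR)
    have := hφ.nonneg k
    have := hmν k
    calc 36 * ν * (φ k * (N k : ℝ) ^ 2 * amp (c t) k ^ 2)
        = φ k * (36 * ν * (N k : ℝ) ^ 2) * amp (c t) k ^ 2 := by ring
      _ ≤ φ k * m k * amp (c t) k ^ 2 := by gcongr
  unfold C1
  linarith

theorem wt_one : Wt (0 : ℕ) (2 ^ 0) fun _ => (1 : ℝ) where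
  a0 := by simp
  D0 := by simp
  nonneg _ := zero_le_one
  lip k q _ := by simp
  dbl k q _ := by simp

theorem pol_one : Pol fun _ => (1 : ℝ) := ⟨1, 0, zero_le_one, fun k => by simp⟩

theorem FSol.energy_anti (h : FSol m T c) (hm : Pol m) (hν : 0 ≤ ν)
    (hmν : ∀ k, 36 * ν * (N k : ℝ) ^ 2 ≤ m k) {a t : ℝ} (ha : 0 < a) (ht : t ∈ Ico a T) :
    XX (fun _ => 1) (amp (c t)) ≤ XX (fun _ => 1) (amp (c a)) := by
  have hd : ∀ s ∈ Ico a T, HasDerivAt (fun s => XX (fun _ => 1) (amp (c s)))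
      (-(2 * XX (fun k => 1 * m k) (amp (c s))) - 2 * prod (fun _ => 1) (c s)) s := fun s hs =>
    h.hasDerivAt_XX hm pol_one ⟨ha.trans_le hs.1, hs.2⟩
  have hle : ∀ s ∈ Ico a T,
      -(2 * XX (fun k => 1 * m k) (amp (c s))) - 2 * prod (fun _ => 1) (c s) ≤ 0 := by
    intro s hs
    refine (h.deriv_le hm hmν wt_one pol_one ⟨ha.trans_le hs.1, hs.2⟩).trans ?_
    have e : C1 0 = 0 := by simp [C1]
    rw [e, zero_mul, add_zero, Left.neg_nonpos_iff]
    have : 0 ≤ XX (fun k => 1 * (N k : ℝ) ^ 2) (amp (c s)) := XX_nonneg fun k => by positivity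
    positivity
  have hanti : AntitoneOn (fun s => XX (fun _ => 1) (amp (c s))) (Ico a T) := by
    refine antitoneOn_of_deriv_nonpos (convex_Ico a T)
      (fun s hs => (hd s hs).continuousAt.continuousWithinAt)
      (fun s hs => (hd s (interior_subset hs)).differentiableAt.differentiableWithinAt)
      (fun s hs => ?_)
    rw [(hd s (interior_subset hs)).deriv]
    exact hle s (interior_subset hs)
  exact hanti ⟨le_rfl, ht.1.trans_lt ht.2⟩ ht ht.1

/-- The barrier. -/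
theorem FSol.barrier (h : FSol m T c) (hm : Pol m) (hν : 0 < ν)
    (hmν : ∀ k, 36 * ν * (N k : ℝ) ^ 2 ≤ m k) {a : ℝ} (ha : 0 < a)
    {M K κ L : ℕ} (hM : 1 ≤ M) (hK : 1 ≤ K) {E : ℝ} (hE0 : 0 ≤ E)
    (hE : XX (fun _ => 1) (amp (c a)) ≤ E ^ 2) {s : ℝ} (hs : s < 5 / 2) {g : ℝ → ℝ}
    (hg0 : ∀ t, 0 ≤ g t) (hgc : ContinuousOn g (Ioo 0 T))
    (h1 : C1 M * (As 0 * (κ : ℝ) ^ (5 / 2 : ℝ) * E) ≤ ν * (L : ℝ) ^ 2)
    (h2 : ∀ t ∈ Ico a T, ∀ x : ℝ, 0 ≤ x →
      C1 M * (As s * (2 * x) ^ (5 / 2 - s) * Real.sqrt (winS s κ K (amp (c t))))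
      ≤ ν * x ^ 2 + g t)
    {η ε G : ℝ} (hη : 0 ≤ η) (h3 : C1 M * (As (1 / 2) * 4 * η) ≤ ν) (hε : 0 < ε)
    (hε1 : C1 M * (As 0 * (κ : ℝ) ^ (5 / 2 : ℝ) * E) * ff M K L * E ^ 2 ≤ ε)
    (hG : ∀ t ∈ Ico a T, ∫ τ in a..t, g τ ≤ G)
    (hsm : Real.exp G * (XX (phi M K) (amp (c a)) + 2 * ε * (T - a)) ≤ η ^ 2) :
    ∀ t ∈ Ico a T, XX (phi M K) (amp (c t)) ≤ η ^ 2 := by
  intro t ht
  have hC := C1_nonneg M
  have hwt := wt_phi hM hK
  have hPφ := pol_phi hM hK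
  have hIoo : ∀ τ ∈ Icc a t, τ ∈ Ioo 0 T := fun τ hτ => ⟨ha.trans_le hτ.1, hτ.2.trans_lt ht.2⟩
  have haT : a < T := ht.1.trans_lt ht.2
  have hgi : ∀ τ ∈ Icc a t, IntervalIntegrable g volume a τ := by
    intro τ hτ
    refine ContinuousOn.intervalIntegrable ?_
    rw [uIcc_of_le hτ.1]
    exact hgc.mono fun r hr => hIoo r ⟨hr.1, hr.2.trans hτ.2⟩
  have hGd : ∀ τ ∈ Icc a t, HasDerivAt (fun r => ∫ x in a..r, g x) (g τ) τ := by
    intro τ hτ
    refine intervalIntegral.integral_hasDerivAt_right (hgi τ hτ) ?_ ?_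
    · exact hgc.stronglyMeasurableAtFilter isOpen_Ioo τ (hIoo τ hτ)
    · exact hgc.continuousAt (Ioo_mem_nhds (hIoo τ hτ).1 (hIoo τ hτ).2)
  set X0 := XX (phi M K) (amp (c a)) with hX0
  have hX0' : 0 ≤ X0 := XX_nonneg hwt.nonneg
  set B : ℝ → ℝ := fun τ => Real.exp (∫ x in a..τ, g x) * (X0 + 2 * ε * (τ - a)) with hB
  have hBd : ∀ τ ∈ Icc a t, HasDerivAt B
      (Real.exp (∫ x in a..τ, g x) * g τ * (X0 + 2 * ε * (τ - a))
        + Real.exp (∫ x in a..τ, g x) * (2 * ε)) τ := by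
    intro τ hτ
    have e1 : HasDerivAt (fun r : ℝ => X0 + 2 * ε * (r - a)) (2 * ε) τ := by
      have := (((hasDerivAt_id τ).sub_const a).const_mul (2 * ε)).const_add X0
      simpa using this
    exact (hGd τ hτ).exp.mul e1
  have hBle : ∀ τ ∈ Icc a t, B τ ≤ η ^ 2 := by
    intro τ hτ
    refine le_trans ?_ hsm
    have e1 := hG τ ⟨hτ.1, hτ.2.trans_lt ht.2⟩
    have e2 : 0 ≤ X0 + 2 * ε * (τ - a) := by
      have : 0 ≤ τ - a := sub_nonneg.2 hτ.1
      positivity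
    have e3 : X0 + 2 * ε * (τ - a) ≤ X0 + 2 * ε * (T - a) := by
      have : τ - a ≤ T - a := by linarith [hτ.2, ht.2]
      gcongr
    exact mul_le_mul (Real.exp_le_exp.2 e1) e3 e2 (Real.exp_pos _).le
  have hXd : ∀ τ ∈ Icc a t, HasDerivAt (fun r => XX (phi M K) (amp (c r)))
      (-(2 * XX (fun k => phi M K k * m k) (amp (c τ))) - 2 * prod (phi M K) (c τ)) τ :=
    fun τ hτ => h.hasDerivAt_XX hm hPφ (hIoo τ hτ)
  have key := image_le_of_deriv_right_lt_deriv_boundary'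
    (f := fun r => XX (phi M K) (amp (c r)))
    (f' := fun τ => -(2 * XX (fun k => phi M K k * m k) (amp (c τ))) - 2 * prod (phi M K) (c τ))
    (a := a) (b := t) (B := B)
    (B' := fun τ => Real.exp (∫ x in a..τ, g x) * g τ * (X0 + 2 * ε * (τ - a))
        + Real.exp (∫ x in a..τ, g x) * (2 * ε))
    (fun τ hτ => (hXd τ hτ).continuousAt.continuousWithinAt)
    (fun τ hτ => (hXd τ ⟨hτ.1, hτ.2.le⟩).hasDerivWithinAt) (by simp [hB, hX0])
    (fun τ hτ => (hBd τ hτ).continuousAt.continuousWithinAt)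
    (fun τ hτ => (hBd τ ⟨hτ.1, hτ.2.le⟩).hasDerivWithinAt) ?_ (right_mem_Icc.2 ht.1)
  · exact key.trans (hBle t (right_mem_Icc.2 ht.1))
  · intro τ hτ heq
    have hτI : τ ∈ Icc a t := ⟨hτ.1, hτ.2.le⟩
    have hτT : τ ∈ Ico a T := ⟨hτ.1, hτ.2.trans ht.2⟩
    have hR := (h.rapV (hIoo τ hτI)).rapR
    have hXη : Real.sqrt (XX (phi M K) (amp (c τ))) ≤ η := by
      rw [heq]
      exact Real.sqrt_le_iff.2 ⟨hη, hBle τ hτI⟩
    have hEτ : XX (fun _ => 1) (amp (c τ)) ≤ E ^ 2 :=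
      (h.energy_anti hm hν.le hmν ha hτT).trans hE
    have h3' : C1 M * (As (1 / 2) * 4 * Real.sqrt (XX (phi M K) (amp (c τ)))) ≤ ν := by
      refine le_trans ?_ h3
      have := As_nonneg (1 / 2)
      gcongr
    have hdi := diff_ineq (amp_nonneg (c τ)) hR (κ := κ) (L := L) hM hK hE0 hEτ hs hν hC
      (hg0 τ) h1 (h2 τ hτT) h3'
    have hle := h.deriv_le hm hmν hwt hPφ (hIoo τ hτI)
    have hY : 0 ≤ XX (fun k => phi M K k * (N k : ℝ) ^ 2) (amp (c τ)) :=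
      XX_nonneg fun k => mul_nonneg (hwt.nonneg k) (sq_nonneg _)
    have hexp : 1 ≤ Real.exp (∫ x in a..τ, g x) := by
      apply Real.one_le_exp
      exact intervalIntegral.integral_nonneg hτ.1 fun x _ => hg0 x
    have hBval : g τ * XX (phi M K) (amp (c τ))
        = Real.exp (∫ x in a..τ, g x) * g τ * (X0 + 2 * ε * (τ - a)) := by
      have : XX (phi M K) (amp (c τ)) = B τ := heq
      rw [this, hB]
      ring
    calc -(2 * XX (fun k => phi M K k * m k) (amp (c τ))) - 2 * prod (phi M K) (c τ)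
        ≤ -(72 * ν * XX (fun k => phi M K k * (N k : ℝ) ^ 2) (amp (c τ)))
          + C1 M * QR (phi M K) (amp (c τ)) := hle
      _ ≤ g τ * XX (phi M K) (amp (c τ)) + ε := by nlinarith
      _ < Real.exp (∫ x in a..τ, g x) * g τ * (X0 + 2 * ε * (τ - a))
        + Real.exp (∫ x in a..τ, g x) * (2 * ε) := by
          rw [hBval]
          nlinarith

/-- High norms stay bounded if the high frequencies stay small in the critical norm. -/
theorem FSol.high (h : FSol m T c) (hm : Pol m) (hν : 0 < ν)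
    (hmν : ∀ k, 36 * ν * (N k : ℝ) ^ 2 ≤ m k) {a : ℝ} (ha : 0 < a)
    {M K : ℕ} (hM : 1 ≤ M) (hK : 1 ≤ K) {η : ℝ} (hη : 0 ≤ η)
    (hX : ∀ t ∈ Ico a T, XX (phi M K) (amp (c t)) ≤ η ^ 2) (P : ℕ)
    (h3 : C1 P * (As (1 / 2) * 4 * η) ≤ ν) :
    ∃ C, ∀ t ∈ Ico a T, XX (fun k => (N k : ℝ) ^ P) (amp (c t)) ≤ C := by
  set E := Real.sqrt (XX (fun _ => 1) (amp (c a))) with hEdef
  have hE0 : 0 ≤ E := Real.sqrt_nonneg _
  have hE2 : E ^ 2 = XX (fun _ => 1) (amp (c a)) := Real.sq_sqrt (XX_nonneg fun _ => zero_le_one)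
  set Λ : ℝ := C1 P * (As 0 * (K : ℝ) ^ (5 / 2 : ℝ) * E) with hΛ
  have hC := C1_nonneg P
  have hA0 := As_nonneg 0
  have hAh := As_nonneg (1 / 2)
  have hΛ0 : 0 ≤ Λ := by positivity
  have hwt := wt_pow P
  have hP := pol_pow P
  have hIoo : ∀ τ ∈ Ico a T, τ ∈ Ioo 0 T := fun τ hτ => ⟨ha.trans_le hτ.1, hτ.2⟩
  set X2 : ℝ → ℝ := fun t => XX (fun k => (N k : ℝ) ^ P) (amp (c t)) with hX2
  have hd : ∀ t ∈ Ico a T, HasDerivAt X2 (-(2 * XX (fun k => (N k : ℝ) ^ P * m k) (amp (c t)))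
      - 2 * prod (fun k => (N k : ℝ) ^ P) (c t)) t := fun t ht =>
    h.hasDerivAt_XX hm hP (hIoo t ht)
  have hle : ∀ t ∈ Ico a T, -(2 * XX (fun k => (N k : ℝ) ^ P * m k) (amp (c t)))
      - 2 * prod (fun k => (N k : ℝ) ^ P) (c t) ≤ Λ * X2 t := by
    intro t ht
    have hR := (h.rapV (hIoo t ht)).rapR
    have hw := amp_nonneg (c t)
    have hEt : XX (fun _ => 1) (amp (c t)) ≤ E ^ 2 :=
      (h.energy_anti hm hν.le hmν ha ht).trans hE2.ge
    refine (h.deriv_le hm hmν hwt hP (hIoo t ht)).trans ?_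
    have s1 := XX_summable hP hR
    have s2 := XX_summable (pol_mul hP (pol_pow 2)) hR
    have s3 := QR_term_summable hwt.nonneg hP hR hw
    have hsq : Real.sqrt (XX (phi M K) (amp (c t))) ≤ η :=
      Real.sqrt_le_iff.2 ⟨hη, hX t ht⟩
    have key : ∀ k, C1 P * ((N k : ℝ) ^ P * amp (c t) k ^ 2 * Sn (amp (c t)) (2 * N k)) ≤
        ν * ((N k : ℝ) ^ P * (N k : ℝ) ^ 2 * amp (c t) k ^ 2)
          + Λ * ((N k : ℝ) ^ P * amp (c t) k ^ 2) := by
      intro k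
      have hb := Sn_bound hw hR (κ := K) hM hK hE0 hEt (s := 0) (by norm_num) (2 * N k)
      have e0 : winS 0 K K (amp (c t)) = 0 := by
        unfold winS
        rw [Finset.sdiff_self, Finset.sum_empty]
      rw [e0, Real.sqrt_zero, mul_zero, add_zero] at hb
      have hcast : ((2 * N k : ℕ) : ℝ) = 2 * (N k : ℝ) := by push_cast; ring
      rw [hcast, Real.rpow_two] at hb
      have h5 : C1 P * (As (1 / 2) * (2 * (N k : ℝ)) ^ 2 * Real.sqrt (XX (phi M K) (amp (c t))))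
          ≤ ν * (N k : ℝ) ^ 2 := by
        calc C1 P * (As (1 / 2) * (2 * (N k : ℝ)) ^ 2 * Real.sqrt (XX (phi M K) (amp (c t))))
            ≤ C1 P * (As (1 / 2) * (2 * (N k : ℝ)) ^ 2 * η) := by gcongr
          _ = C1 P * (As (1 / 2) * 4 * η) * (N k : ℝ) ^ 2 := by ring
          _ ≤ ν * (N k : ℝ) ^ 2 := by gcongr
      have h6 : C1 P * Sn (amp (c t)) (2 * N k) ≤ Λ + ν * (N k : ℝ) ^ 2 := by
        have := mul_le_mul_of_nonneg_left hb hC
        rw [mul_add] at this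
        linarith
      calc C1 P * ((N k : ℝ) ^ P * amp (c t) k ^ 2 * Sn (amp (c t)) (2 * N k))
          = (N k : ℝ) ^ P * amp (c t) k ^ 2 * (C1 P * Sn (amp (c t)) (2 * N k)) := by ring
        _ ≤ (N k : ℝ) ^ P * amp (c t) k ^ 2 * (Λ + ν * (N k : ℝ) ^ 2) := by gcongr
        _ = _ := by ring
    have hQ : C1 P * QR (fun k => (N k : ℝ) ^ P) (amp (c t)) ≤
        ν * XX (fun k => (N k : ℝ) ^ P * (N k : ℝ) ^ 2) (amp (c t)) + Λ * X2 t := by
      unfold QR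
      rw [← tsum_mul_left]
      refine ((s3.mul_left _).tsum_le_tsum key ((s2.mul_left ν).add (s1.mul_left Λ))).trans ?_
      rw [(s2.mul_left ν).tsum_add (s1.mul_left Λ), tsum_mul_left, tsum_mul_left]
      exact le_rfl
    have hY : 0 ≤ XX (fun k => (N k : ℝ) ^ P * (N k : ℝ) ^ 2) (amp (c t)) :=
      XX_nonneg fun k => by positivity
    nlinarith
  -- Gronwall
  have hX20 : ∀ t, 0 ≤ X2 t := fun t => XX_nonneg fun k => by positivity
  set Z : ℝ → ℝ := fun t => Real.exp (-(Λ * (t - a))) * X2 t with hZ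
  have hZd : ∀ t ∈ Ico a T, HasDerivAt Z (Real.exp (-(Λ * (t - a))) * (-Λ) * X2 t +
      Real.exp (-(Λ * (t - a))) * (-(2 * XX (fun k => (N k : ℝ) ^ P * m k) (amp (c t)))
      - 2 * prod (fun k => (N k : ℝ) ^ P) (c t))) t := by
    intro t ht
    have e1 : HasDerivAt (fun r : ℝ => -(Λ * (r - a))) (-Λ) t := by
      have := (((hasDerivAt_id t).sub_const a).const_mul Λ).fun_neg
      simpa using this
    exact e1.exp.mul (hd t ht)
  have hanti : AntitoneOn Z (Ico a T) := by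
    refine antitoneOn_of_deriv_nonpos (convex_Ico a T)
      (fun s hs => (hZd s hs).continuousAt.continuousWithinAt)
      (fun s hs => (hZd s (interior_subset hs)).differentiableAt.differentiableWithinAt)
      (fun s hs => ?_)
    rw [(hZd s (interior_subset hs)).deriv]
    have := hle s (interior_subset hs)
    have he := Real.exp_pos (-(Λ * (s - a)))
    nlinarith
  refine ⟨Real.exp (Λ * (T - a)) * X2 a, fun t ht => ?_⟩
  have h7 : Z t ≤ Z a := hanti ⟨le_rfl, ht.1.trans_lt ht.2⟩ ht ht.1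
  have h8 : Z a = X2 a := by simp [hZ]
  have h9 : X2 t = Real.exp (Λ * (t - a)) * Z t := by
    rw [hZ]
    simp only
    rw [← mul_assoc, ← Real.exp_add]
    simp
  rw [h8] at h7
  show X2 t ≤ _
  rw [h9]
  have h10 : Real.exp (Λ * (t - a)) ≤ Real.exp (Λ * (T - a)) := by
    apply Real.exp_le_exp.2
    have : t - a ≤ T - a := by linarith [ht.2]
    gcongr
  calc Real.exp (Λ * (t - a)) * Z t ≤ Real.exp (Λ * (t - a)) * X2 a := by gcongr
    _ ≤ Real.exp (Λ * (T - a)) * X2 a := by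
      have := hX20 a
      gcongr

end

end Pool.Agent.Q63.Win
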