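import Pool.Agent.Q63.Win.Alg

/-!
The quadratic term of the Navier-Stokes equations: estimate of the weighted energy production.
-/

open Set Filter Topology
open scoped ENNReal

namespace Pool.Agent.Q63.Win

open H459R3.NS

/-- `∑ φ |w|² S`, as a real number -/
noncomputable def QR (φ w : K3 → ℝ) : ℝ := ∑' k, φ k * w k ^ 2 * Sn w (2 * N k)

theorem Sn_le {w : K3 → ℝ} (h : RapR w) (hw : ∀ k, 0 ≤ w k) : ∃ M, 0 ≤ M ∧ ∀ R, Sn w R ≤ M := by
  have h1 : Summable fun k => (N k : ℝ) * w k := by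
    refine Summable.of_nonneg_of_le (fun k => mul_nonneg (Nat.cast_nonneg _) (hw k)) (fun k => ?_)
      (h.summable 1)
    rw [abs_of_nonneg (hw k), pow_one]
    have := hw k
    gcongr
    linarith
  refine ⟨∑' k, (N k : ℝ) * w k, tsum_nonneg fun k => mul_nonneg (Nat.cast_nonneg _) (hw k),
    fun R => ?_⟩
  exact h1.sum_le_tsum _ fun k _ => mul_nonneg (Nat.cast_nonneg _) (hw k)

theorem QR_term_summable {φ w : K3 → ℝ} (hφ : ∀ k, 0 ≤ φ k) (hP : Pol φ) (h : RapR w)
    (hw : ∀ k, 0 ≤ w k) : Summable fun k => φ k * w k ^ 2 * Sn w (2 * N k) := by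
  obtain ⟨M, hM0, hM⟩ := Sn_le h hw
  have h1 : Summable fun k => φ k * (w k * w k) := ((h.mul h).mul_pol hP).summable'
  refine Summable.of_nonneg_of_le (fun k => ?_) (fun k => ?_) (h1.mul_right M)
  · have := hφ k
    have := hw k
    have := Sn_nonneg hw (2 * N k)
    positivity
  · rw [sq]
    have := hφ k
    have := hw k
    gcongr
    exact hM _

theorem QR_nonneg {φ w : K3 → ℝ} (hφ : ∀ k, 0 ≤ φ k) (hw : ∀ k, 0 ≤ w k) : 0 ≤ QR φ w := by
  refine tsum_nonneg fun k => ?_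
  have := hφ k
  have := hw k
  have := Sn_nonneg hw (2 * N k)
  positivity

theorem QQ_eq {φ w : K3 → ℝ} (hφ : ∀ k, 0 ≤ φ k) (hP : Pol φ) (h : RapR w)
    (hw : ∀ k, 0 ≤ w k) : QQ φ w = ENNReal.ofReal (QR φ w) := by
  unfold QQ QR
  rw [ENNReal.ofReal_tsum_of_nonneg _ (QR_term_summable hφ hP h hw)]
  intro k
  have := hφ k
  have := hw k
  have := Sn_nonneg hw (2 * N k)
  positivity

/-- summability of double families -/
theorem summable_pair {φ w : K3 → ℝ} (hP : Pol φ) (h : RapR w) (hw : ∀ k, 0 ≤ w k) :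
    Summable fun p : K3 × K3 => |φ p.1| * (N p.2 * (w (p.1 - p.2) * w p.2 * w p.1)) := by
  obtain ⟨M, hM0, hM⟩ := h.bdd
  have h1 : Summable fun k => |φ k| * w k := by
    have := ((h.mul_pol hP).summable').abs
    refine this.congr fun k => ?_
    rw [abs_mul, abs_of_nonneg (hw k)]
  have h2 : Summable fun k => (N k : ℝ) * w k := by
    refine Summable.of_nonneg_of_le (fun k => mul_nonneg (Nat.cast_nonneg _) (hw k)) (fun k => ?_)
      (h.summable 1)
    rw [abs_of_nonneg (hw k), pow_one]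
    have := hw k
    gcongr
    linarith
  have h3 := (h1.mul_of_nonneg h2 (fun k => mul_nonneg (abs_nonneg _) (hw k))
    (fun k => mul_nonneg (Nat.cast_nonneg _) (hw k))).mul_left M
  refine Summable.of_nonneg_of_le (fun p => ?_) (fun p => ?_) h3
  · have := hw (p.1 - p.2)
    have := hw p.2
    have := hw p.1
    positivity
  · have a1 := hw (p.1 - p.2)
    have a2 := hw p.2
    have a3 := hw p.1
    have a4 := hM (p.1 - p.2)
    rw [abs_of_nonneg a1] at a4
    calc |φ p.1| * (N p.2 * (w (p.1 - p.2) * w p.2 * w p.1))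
        ≤ |φ p.1| * (N p.2 * (M * w p.2 * w p.1)) := by gcongr
      _ = M * (|φ p.1| * w p.1 * (N p.2 * w p.2)) := by ring

theorem summable_NL {c : Fam} (h : RapV c) (k : K3) (i : Fin 3) :
    Summable fun q : K3 => ∑ j, c (k - q) j * (2 * Real.pi * Complex.I * (q j : ℂ)) * c q i := by
  obtain ⟨M, hM0, hM⟩ := h.rapR.bdd
  have h2 := (h.rapR.summable 1).mul_left (3 * (M * 7))
  refine Summable.of_norm_bounded h2 fun q => ?_
  refine (norm_sum_le _ _).trans ?_
  have hb : ∀ j ∈ (Finset.univ : Finset (Fin 3)),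
      ‖c (k - q) j * (2 * Real.pi * Complex.I * (q j : ℂ)) * c q i‖
      ≤ M * 7 * ((1 + (N q : ℝ)) ^ 1 * |amp c q|) := by
    intro j _
    rw [norm_mul, norm_mul, norm_mul, norm_mul, norm_mul, Complex.norm_I, Complex.norm_real,
      Real.norm_eq_abs, abs_of_pos Real.pi_pos, Complex.norm_intCast, Complex.norm_ofNat]
    have a1 : ‖c (k - q) j‖ ≤ M := (norm_le_amp c (k - q) j).trans
      ((le_abs_self _).trans (hM _))
    have a2 : ‖c q i‖ ≤ |amp c q| := (norm_le_amp c q i).trans (le_abs_self _)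
    have a3 := abs_coord_le q j
    have a4 : Real.pi ≤ 3.15 := Real.pi_lt_d2.le
    have := Real.pi_pos
    calc ‖c (k - q) j‖ * (2 * Real.pi * 1 * |(q j : ℝ)|) * ‖c q i‖
        ≤ M * (2 * 3.15 * 1 * N q) * |amp c q| := by gcongr
      _ ≤ M * (7 * (1 + (N q : ℝ)) ^ 1) * |amp c q| := by
          have h7 : 2 * 3.15 * 1 * (N q : ℝ) ≤ 7 * (1 + (N q : ℝ)) ^ 1 := by
            rw [pow_one]
            have : (0 : ℝ) ≤ N q := Nat.cast_nonneg _
            linarith
          exact mul_le_mul_of_nonneg_right (mul_le_mul_of_nonneg_left h7 hM0) (abs_nonneg _)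
      _ = _ := by ring
  calc ∑ j, ‖c (k - q) j * (2 * Real.pi * Complex.I * (q j : ℂ)) * c q i‖
      ≤ ∑ _j : Fin 3, M * 7 * ((1 + (N q : ℝ)) ^ 1 * |amp c q|) := Finset.sum_le_sum hb
    _ = 3 * (M * 7) * ((1 + (N q : ℝ)) ^ 1 * |amp c q|) := by simp; ring

theorem hasSum_tg {c : Fam} (h : RapV c) (k : K3) :
    HasSum (fun q => tg c k q) (∑ i, (starRingEnd ℂ) (c k i) * NL c k i) := by
  have h1 : ∀ i, HasSum (fun q => (starRingEnd ℂ) (c k i) *
      ∑ j, c (k - q) j * (2 * Real.pi * Complex.I * (q j : ℂ)) * c q i)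
      ((starRingEnd ℂ) (c k i) * NL c k i) := fun i => (summable_NL h k i).hasSum.mul_left _
  refine (hasSum_sum fun i (_ : i ∈ Finset.univ) => h1 i).congr_fun fun q => ?_
  unfold tg
  rw [Finset.mul_sum]
  refine Finset.sum_congr rfl fun i _ => ?_
  rw [Finset.mul_sum, Finset.mul_sum, Finset.sum_mul]
  refine Finset.sum_congr rfl fun j _ => ?_
  ring

/-- The weighted energy production. -/
noncomputable def prod (φ : K3 → ℝ) (c : Fam) : ℝ :=
  ∑' k, φ k * (∑ i, (starRingEnd ℂ) (c k i) * NL c k i).re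

theorem prod_bound {a D : ℝ} {φ : K3 → ℝ} (hφ : Wt a D φ) (hP : Pol φ) {c : Fam} (h : RapV c)
    (hreal : ∀ k i, c (-k) i = (starRingEnd ℂ) (c k i))
    (hdiv : ∀ k, ∑ i, (k i : ℂ) * c k i = 0) :
    |2 * prod φ c| ≤ 13 * (8 * a * (1 + D)) * QR φ (amp c) := by
  have hw := amp_nonneg c
  have he : ∀ k, amp c (-k) = amp c k := by
    intro k
    unfold amp
    simp_rw [hreal, RCLike.norm_conj]
  have hpair := summable_pair hP h.rapR hw
  -- summability of the double family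
  have hF : Summable fun p : K3 × K3 => φ p.1 * (tg c p.1 p.2).re := by
    refine Summable.of_norm_bounded (hpair.mul_left 13) fun p => ?_
    rw [norm_mul, Real.norm_eq_abs, Real.norm_eq_abs]
    have h1 := (Complex.abs_re_le_norm (tg c p.1 p.2)).trans (norm_tg_le' c p.1 p.2)
    calc |φ p.1| * |(tg c p.1 p.2).re|
        ≤ |φ p.1| * (13 * N p.2 * (amp c (p.1 - p.2) * amp c p.2 * amp c p.1)) := by gcongr
      _ = _ := by ring
  have e1 : prod φ c = ∑' p : K3 × K3, φ p.1 * (tg c p.1 p.2).re := by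
    rw [hF.tsum_prod]
    unfold prod
    refine tsum_congr fun k => ?_
    have h6 : ∑' q, φ k * (tg c k q).re = φ k * ∑' q, (tg c k q).re := tsum_mul_left
    show _ = ∑' q, φ k * (tg c k q).re
    rw [h6, (Complex.hasSum_re (hasSum_tg h k)).tsum_eq]
  have hF' : Summable fun p : K3 × K3 => φ p.2 * (tg c p.2 p.1).re :=
    (Equiv.prodComm K3 K3).summable_iff.2 hF
  have e2 : prod φ c = ∑' p : K3 × K3, φ p.2 * (tg c p.2 p.1).re := by
    rw [e1]
    exact ((Equiv.prodComm K3 K3).tsum_eq (fun p : K3 × K3 => φ p.1 * (tg c p.1 p.2).re)).symm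
  have e3 : ∀ p : K3 × K3, φ p.1 * (tg c p.1 p.2).re + φ p.2 * (tg c p.2 p.1).re
      = (φ p.1 - φ p.2) * (tg c p.1 p.2).re := by
    intro p
    rw [tg_swap hreal hdiv p.1 p.2]
    simp only [Complex.neg_re, Complex.conj_re]
    ring
  have hS : Summable fun p : K3 × K3 => (φ p.1 - φ p.2) * (tg c p.1 p.2).re := by
    refine (hF.add hF').congr fun p => ?_
    exact e3 p
  have e4 : 2 * prod φ c = ∑' p : K3 × K3, (φ p.1 - φ p.2) * (tg c p.1 p.2).re := by
    rw [two_mul]
    nth_rewrite 1 [e1]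
    rw [e2, ← hF.tsum_add hF']
    exact tsum_congr e3
  have hS' := hS.abs
  have h5 : |2 * prod φ c| ≤ ∑' p : K3 × K3, |(φ p.1 - φ p.2) * (tg c p.1 p.2).re| := by
    rw [e4]
    exact norm_tsum_le_tsum_norm (f := fun p : K3 × K3 => (φ p.1 - φ p.2) * (tg c p.1 p.2).re) hS'
  have hQ := QR_nonneg hφ.nonneg hw
  have ha := hφ.a0
  have hD := hφ.D0
  refine h5.trans ?_
  rw [← ENNReal.ofReal_le_ofReal_iff (by positivity),
    ENNReal.ofReal_tsum_of_nonneg (fun p => abs_nonneg _) hS']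
  calc ∑' p : K3 × K3, ENNReal.ofReal |(φ p.1 - φ p.2) * (tg c p.1 p.2).re|
      ≤ ∑' p : K3 × K3, ENNReal.ofReal 13 * ENNReal.ofReal (|φ p.1 - φ p.2| *
          min (N p.1 : ℝ) (N p.2) * (amp c (p.1 - p.2) * amp c p.2 * amp c p.1)) := by
        refine ENNReal.tsum_le_tsum fun p => ?_
        rw [← ENNReal.ofReal_mul (by norm_num)]
        apply ENNReal.ofReal_le_ofReal
        rw [abs_mul]
        have h1 := (Complex.abs_re_le_norm (tg c p.1 p.2)).trans (norm_tg_le hdiv p.1 p.2)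
        calc |φ p.1 - φ p.2| * |(tg c p.1 p.2).re|
            ≤ |φ p.1 - φ p.2| * (13 * (min (N p.1 : ℝ) (N p.2) *
              (amp c (p.1 - p.2) * amp c p.2 * amp c p.1))) := by gcongr
          _ = _ := by ring
    _ = ENNReal.ofReal 13 * ∑' p : K3 × K3, ENNReal.ofReal (|φ p.1 - φ p.2| *
          min (N p.1 : ℝ) (N p.2) * (amp c (p.1 - p.2) * amp c p.2 * amp c p.1)) :=
        ENNReal.tsum_mul_left
    _ ≤ ENNReal.ofReal 13 * (ENNReal.ofReal (8 * a * (1 + D)) * QQ φ (amp c)) := by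
        gcongr
        exact core hφ hw he
    _ = ENNReal.ofReal (13 * (8 * a * (1 + D)) * QR φ (amp c)) := by
        rw [QQ_eq hφ.nonneg hP h.rapR hw, ← ENNReal.ofReal_mul (by positivity),
          ← ENNReal.ofReal_mul (by norm_num)]
        congr 1
        ring

end Pool.Agent.Q63.Win
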