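import Pool.Agent.Q63.Win.Barrier

/-!
Choice of the parameters: windows `K^θ < |k| ≤ K`, `θ < 4/5`.
-/

open MeasureTheory Set Filter Topology
open scoped ENNReal

namespace Pool.Agent.Q63.Win

open H459R3.NS

/-- the exponent between `5 θ / 4` and `1` -/
noncomputable def lam (θ : ℝ) : ℝ := (5 / 4 * θ + 1) / 2

theorem lam_lt {θ : ℝ} (hθ : θ < 4 / 5) : lam θ < 1 := by unfold lam; linarith

theorem exists_M {θ : ℝ} (hθ : θ < 4 / 5) : ∃ M : ℕ, 4 ≤ M ∧ 4 ≤ (M : ℝ) * (1 - lam θ) := by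
  have h1 : 0 < 1 - lam θ := by linarith [lam_lt hθ]
  obtain ⟨n, hn⟩ := exists_nat_ge (4 / (1 - lam θ))
  refine ⟨max 4 n, le_max_left _ _, ?_⟩
  rw [div_le_iff₀ h1] at hn
  have h2 : (n : ℝ) ≤ ((max 4 n : ℕ) : ℝ) := by exact_mod_cast le_max_right _ _
  calc (4 : ℝ) ≤ n * (1 - lam θ) := hn
    _ ≤ ((max 4 n : ℕ) : ℝ) * (1 - lam θ) := by gcongr

theorem C1_mono {P M : ℕ} (h : P ≤ M) : C1 P ≤ C1 M := by
  unfold C1
  have : (P : ℝ) ≤ M := by exact_mod_cast h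
  have h2 : (2 : ℝ) ^ P ≤ 2 ^ M := pow_le_pow_right₀ (by norm_num) h
  gcongr

section

variable {m : K3 → ℝ} {T ν : ℝ} {c : ℝ → Fam}

theorem FSol.window (h : FSol m T c) (hm : Pol m) (hν : 0 < ν)
    (hmν : ∀ k, 36 * ν * (N k : ℝ) ^ 2 ≤ m k) {θ : ℝ} (hθ0 : 0 < θ) (hθ : θ < 4 / 5) {M : ℕ}
    (hM4 : 4 ≤ M) (hMl : 4 ≤ (M : ℝ) * (1 - lam θ)) {s : ℝ} (hs : s < 5 / 2) {a : ℝ} (ha : 0 < a)
    (haT : a < T) :
    ∀ᶠ K : ℕ in atTop, ∀ g : ℝ → ℝ, (∀ t, 0 ≤ g t) → ContinuousOn g (Ioo 0 T) →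
      (∀ t ∈ Ico a T, ∀ x : ℝ, 0 ≤ x → C1 M * (As s * (2 * x) ^ (5 / 2 - s) *
        Real.sqrt (winS s ⌊(K : ℝ) ^ θ⌋₊ K (amp (c t)))) ≤ ν * x ^ 2 + g t) →
      (∀ t ∈ Ico a T, ∫ τ in a..t, g τ ≤ 1 / 2 * Real.log K) →
      ∃ C, ∀ t ∈ Ico a T, XX (fun k => (N k : ℝ) ^ 4) (amp (c t)) ≤ C := by
  have hM1 : 1 ≤ M := by omega
  have haI : a ∈ Ioo 0 T := ⟨ha, haT⟩
  have hR := (h.rapV haI).rapR
  set E := Real.sqrt (XX (fun _ => 1) (amp (c a))) with hEdef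
  have hE0 : 0 ≤ E := Real.sqrt_nonneg _
  have hE2 : E ^ 2 = XX (fun _ => 1) (amp (c a)) := Real.sq_sqrt (XX_nonneg fun _ => zero_le_one)
  set XM := XX (fun k => (N k : ℝ) ^ M) (amp (c a)) with hXM
  have hXM0 : 0 ≤ XM := XX_nonneg fun k => by positivity
  have hC := C1_nonneg M
  have hCpos : 0 < C1 M := by
    unfold C1
    have : (0 : ℝ) < M := by exact_mod_cast hM1
    positivity
  have hA0 := As_nonneg 0
  have hAh : 0 < As (1 / 2) := by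
    unfold As
    apply Real.sqrt_pos.2
    apply div_pos (by norm_num)
    apply lt_min <;> norm_num
  set η : ℝ := ν / (C1 M * (As (1 / 2) * 4)) with hη
  have hη0 : 0 < η := by positivity
  have hηeq : C1 M * (As (1 / 2) * 4 * η) = ν := by
    rw [hη]; field_simp
  set D : ℝ := C1 M * As 0 * E ^ 3 * 2 ^ M + 1 with hD
  have hD0 : 0 < D := by positivity
  have hl1 := lam_lt hθ
  have hl0 : 0 < lam θ := by unfold lam; linarith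
  -- the conditions on `K`
  have c1 : ∀ᶠ K : ℕ in atTop, 1 ≤ K := eventually_ge_atTop 1
  have c2 : ∀ᶠ K : ℕ in atTop, C1 M * As 0 * E / ν ≤ (K : ℝ) ^ (2 * lam θ - 5 / 2 * θ) := by
    have h2 : 0 < 2 * lam θ - 5 / 2 * θ := by unfold lam; linarith
    exact ((tendsto_rpow_atTop h2).comp tendsto_natCast_atTop_atTop).eventually_ge_atTop _
  have c3 : ∀ᶠ K : ℕ in atTop, 2 ≤ (K : ℝ) ^ (1 - lam θ) := by
    have h2 : 0 < 1 - lam θ := by linarith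
    exact ((tendsto_rpow_atTop h2).comp tendsto_natCast_atTop_atTop).eventually_ge_atTop _
  have c4 : ∀ᶠ K : ℕ in atTop, (XM + 2 * D * (T - a)) / η ^ 2 ≤ (K : ℝ) ^ (1 / 2 : ℝ) :=
    ((tendsto_rpow_atTop (by norm_num)).comp tendsto_natCast_atTop_atTop).eventually_ge_atTop _
  filter_upwards [c1, c2, c3, c4] with K hK k2 k3 k4 g hg0 hgc h2 hG
  have hKR : (0 : ℝ) < K := by exact_mod_cast hK
  have hK1 : (1 : ℝ) ≤ K := by exact_mod_cast hK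
  set κ := ⌊(K : ℝ) ^ θ⌋₊ with hκ
  set L := ⌈(K : ℝ) ^ lam θ⌉₊ with hL
  have hκle : (κ : ℝ) ≤ (K : ℝ) ^ θ := Nat.floor_le (by positivity)
  have hκ52 : (κ : ℝ) ^ (5 / 2 : ℝ) ≤ (K : ℝ) ^ (5 / 2 * θ) := by
    calc (κ : ℝ) ^ (5 / 2 : ℝ) ≤ ((K : ℝ) ^ θ) ^ (5 / 2 : ℝ) := by gcongr
      _ = (K : ℝ) ^ (5 / 2 * θ) := by rw [← Real.rpow_mul hKR.le]; ring_nf
  have hLge : (K : ℝ) ^ lam θ ≤ L := Nat.le_ceil _
  have hLone : (1 : ℝ) ≤ (K : ℝ) ^ lam θ := Real.one_le_rpow hK1 hl0.le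
  have hLle : (L : ℝ) ≤ 2 * (K : ℝ) ^ lam θ := by
    have := Nat.ceil_lt_add_one (a := (K : ℝ) ^ lam θ) (by positivity)
    linarith
  have hLK : L ≤ K := by
    have h3 : 2 * (K : ℝ) ^ lam θ ≤ K := by
      calc 2 * (K : ℝ) ^ lam θ ≤ (K : ℝ) ^ (1 - lam θ) * (K : ℝ) ^ lam θ := by gcongr
        _ = K := by rw [← Real.rpow_add hKR]; simp
    exact_mod_cast hLle.trans h3
  have h1 : C1 M * (As 0 * (κ : ℝ) ^ (5 / 2 : ℝ) * E) ≤ ν * (L : ℝ) ^ 2 := by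
    rw [div_le_iff₀ hν] at k2
    calc C1 M * (As 0 * (κ : ℝ) ^ (5 / 2 : ℝ) * E)
        = (C1 M * As 0 * E) * (κ : ℝ) ^ (5 / 2 : ℝ) := by ring
      _ ≤ ((K : ℝ) ^ (2 * lam θ - 5 / 2 * θ) * ν) * (K : ℝ) ^ (5 / 2 * θ) := by gcongr
      _ = ν * ((K : ℝ) ^ lam θ) ^ 2 := by
          rw [← Real.rpow_natCast ((K : ℝ) ^ lam θ) 2, ← Real.rpow_mul hKR.le]
          have : (K : ℝ) ^ (lam θ * ((2 : ℕ) : ℝ))
              = (K : ℝ) ^ (2 * lam θ - 5 / 2 * θ) * (K : ℝ) ^ (5 / 2 * θ) := by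
            rw [← Real.rpow_add hKR]
            congr 1
            push_cast
            ring
          rw [this]
          ring
      _ ≤ ν * (L : ℝ) ^ 2 := by gcongr
  have hff : ff M K L ≤ 2 ^ M * (K : ℝ) ^ (-3 : ℝ) := by
    refine (ff_le hM1 hK L).trans ?_
    have h5 : (L : ℝ) / K ≤ 2 * (K : ℝ) ^ (lam θ - 1) := by
      rw [div_le_iff₀ hKR]
      refine hLle.trans (le_of_eq ?_)
      rw [mul_assoc, ← Real.rpow_add_one hKR.ne']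
      ring_nf
    calc (K : ℝ) * ((L : ℝ) / K) ^ M ≤ K * (2 * (K : ℝ) ^ (lam θ - 1)) ^ M := by gcongr
      _ = 2 ^ M * (K * (K : ℝ) ^ ((lam θ - 1) * M)) := by
          rw [mul_pow, ← Real.rpow_natCast ((K : ℝ) ^ (lam θ - 1)) M, ← Real.rpow_mul hKR.le]
          ring
      _ = 2 ^ M * (K : ℝ) ^ ((lam θ - 1) * M + 1) := by
          rw [Real.rpow_add_one hKR.ne']
          ring
      _ ≤ 2 ^ M * (K : ℝ) ^ (-3 : ℝ) := by
          gcongr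
          nlinarith
  have hκ2 : (κ : ℝ) ^ (5 / 2 : ℝ) ≤ (K : ℝ) ^ (2 : ℝ) := by
    refine hκ52.trans ?_
    apply Real.rpow_le_rpow_of_exponent_le hK1
    linarith
  set ε : ℝ := D * (K : ℝ) ^ (-1 : ℝ) with hε
  have hε0 : 0 < ε := by positivity
  have hε1 : C1 M * (As 0 * (κ : ℝ) ^ (5 / 2 : ℝ) * E) * ff M K L * E ^ 2 ≤ ε := by
    have hff0 := ff_nonneg (M := M) hK L
    calc C1 M * (As 0 * (κ : ℝ) ^ (5 / 2 : ℝ) * E) * ff M K L * E ^ 2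
        ≤ C1 M * (As 0 * (K : ℝ) ^ (2 : ℝ) * E) * (2 ^ M * (K : ℝ) ^ (-3 : ℝ)) * E ^ 2 := by
          gcongr
      _ = C1 M * As 0 * E ^ 3 * 2 ^ M * ((K : ℝ) ^ (2 : ℝ) * (K : ℝ) ^ (-3 : ℝ)) := by ring
      _ = C1 M * As 0 * E ^ 3 * 2 ^ M * (K : ℝ) ^ (-1 : ℝ) := by
          rw [← Real.rpow_add hKR]
          norm_num
      _ ≤ ε := by
          rw [hε, hD]
          gcongr
          linarith
  have hXa : XX (phi M K) (amp (c a)) ≤ XM * (K : ℝ) ^ (-1 : ℝ) := by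
    have s1 := XX_summable (pol_phi hM1 hK) hR
    have s2 := XX_summable (pol_pow M) hR
    unfold XX at hXM ⊢
    rw [hXM, ← tsum_mul_right]
    refine s1.tsum_le_tsum (fun k => ?_) (s2.mul_right _)
    have h6 : phi M K k ≤ (N k : ℝ) ^ M * (K : ℝ) ^ (-1 : ℝ) := by
      refine (ff_le hM1 hK _).trans ?_
      rw [div_pow, Real.rpow_neg_one]
      have h7 : (K : ℝ) ^ 2 ≤ (K : ℝ) ^ M := pow_le_pow_right₀ hK1 (by omega)
      have h8 : (K : ℝ) * ((N k : ℝ) ^ M / (K : ℝ) ^ M) = (N k : ℝ) ^ M * (K / (K : ℝ) ^ M) := by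
        ring
      rw [h8]
      gcongr
      rw [div_le_iff₀ (by positivity)]
      calc (K : ℝ) = (K : ℝ)⁻¹ * (K : ℝ) ^ 2 := by field_simp
        _ ≤ (K : ℝ)⁻¹ * (K : ℝ) ^ M := by gcongr
    calc phi M K k * amp (c a) k ^ 2
        ≤ ((N k : ℝ) ^ M * (K : ℝ) ^ (-1 : ℝ)) * amp (c a) k ^ 2 := by gcongr
      _ = _ := by ring
  have hTa : 0 ≤ T - a := by linarith
  have hsm : Real.exp (1 / 2 * Real.log K) * (XX (phi M K) (amp (c a)) + 2 * ε * (T - a))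
      ≤ η ^ 2 := by
    have e1 : Real.exp (1 / 2 * Real.log K) = (K : ℝ) ^ (1 / 2 : ℝ) := by
      rw [Real.rpow_def_of_pos hKR]
      ring_nf
    rw [e1]
    have hη2 : 0 < η ^ 2 := by positivity
    rw [div_le_iff₀ hη2] at k4
    calc (K : ℝ) ^ (1 / 2 : ℝ) * (XX (phi M K) (amp (c a)) + 2 * ε * (T - a))
        ≤ (K : ℝ) ^ (1 / 2 : ℝ) * (XM * (K : ℝ) ^ (-1 : ℝ) + 2 * (D * (K : ℝ) ^ (-1 : ℝ)) * (T - a)) := by
          gcongr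
      _ = ((K : ℝ) ^ (1 / 2 : ℝ) * (K : ℝ) ^ (-1 : ℝ)) * (XM + 2 * D * (T - a)) := by ring
      _ ≤ ((K : ℝ) ^ (1 / 2 : ℝ) * (K : ℝ) ^ (-1 : ℝ)) * ((K : ℝ) ^ (1 / 2 : ℝ) * η ^ 2) := by
          gcongr
      _ = ((K : ℝ) ^ (1 / 2 : ℝ) * (K : ℝ) ^ (1 / 2 : ℝ) * (K : ℝ) ^ (-1 : ℝ)) * η ^ 2 := by ring
      _ = η ^ 2 := by
          rw [← Real.rpow_add hKR, ← Real.rpow_add hKR]
          norm_num
  have hb := h.barrier hm hν hmν ha hM1 hK hE0 hE2.ge hs hg0 hgc h1 h2 hη0.le hηeq.le hε0 hε1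
    hG hsm
  refine h.high hm hν hmν ha hM1 hK hη0.le hb 4 ?_
  calc C1 4 * (As (1 / 2) * 4 * η) ≤ C1 M * (As (1 / 2) * 4 * η) := by
        gcongr
        exact C1_mono hM4
    _ = ν := hηeq

end

end Pool.Agent.Q63.Win
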