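import Pool.Agent.H459R3.NS.Thin

/-!
The basic trilinear estimate in weighted `ℓ²` spaces of Fourier coefficients.
-/

open Set Filter Topology
open scoped ENNReal

namespace Pool.Agent.Q63.Win

open H459R3.NS

theorem N_add_le (k l : K3) : N (k + l) ≤ N k + N l := by
  rw [N_le_iff]
  intro j
  have h1 := (N_le_iff k (N k)).1 le_rfl j
  have h2 := (N_le_iff l (N l)).1 le_rfl j
  simp only [Pi.add_apply]
  push_cast
  exact (abs_add_le _ _).trans (add_le_add h1 h2)

theorem N_sub_le (k l : K3) : N (k - l) ≤ N k + N l := by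
  rw [sub_eq_add_neg]
  exact (N_add_le _ _).trans (by rw [N_neg])

theorem N_sub_comm (k l : K3) : N (k - l) = N (l - k) := by
  rw [← N_neg (l - k), neg_sub]

theorem N_le_sub (k l : K3) : N k ≤ N (k - l) + N l := by
  have := N_add_le (k - l) l
  rwa [sub_add_cancel] at this

/-- the box `N k ≤ R` -/
noncomputable def box (R : ℕ) : Finset K3 := Fintype.piFinset fun _ => Finset.Icc (-(R : ℤ)) R

theorem mem_box {R : ℕ} {k : K3} : k ∈ box R ↔ N k ≤ R := by
  rw [N_le_iff, box, Fintype.mem_piFinset]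
  simp only [Finset.mem_Icc, abs_le]

theorem card_box (R : ℕ) : (box R).card = (2 * R + 1) ^ 3 := by
  rw [box, Fintype.card_piFinset]
  simp only [Int.card_Icc, Finset.prod_const, Finset.card_univ, Fintype.card_fin]
  congr 1
  omega

/-- `∑ |l| w(l)` over the frequencies `|l| ≤ R`. -/
noncomputable def Sn (w : K3 → ℝ) (R : ℕ) : ℝ := ∑ l ∈ box R, (N l : ℝ) * w l

theorem Sn_nonneg {w : K3 → ℝ} (hw : ∀ k, 0 ≤ w k) (R : ℕ) : 0 ≤ Sn w R :=
  Finset.sum_nonneg fun l _ => mul_nonneg (Nat.cast_nonneg _) (hw l)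

theorem Sn_mono {w : K3 → ℝ} (hw : ∀ k, 0 ≤ w k) {R R' : ℕ} (h : R ≤ R') : Sn w R ≤ Sn w R' := by
  refine Finset.sum_le_sum_of_subset_of_nonneg (fun l hl => ?_) fun l _ _ =>
    mul_nonneg (Nat.cast_nonneg _) (hw l)
  rw [mem_box] at hl ⊢
  omega

/-- Weights which increase at most like a power. -/
structure Wt (a D : ℝ) (φ : K3 → ℝ) : Prop where
  a0 : 0 ≤ a
  D0 : 0 ≤ D
  nonneg : ∀ k, 0 ≤ φ k
  lip : ∀ k q, N q ≤ N k → |φ k - φ q| * N k ≤ a * (N (k - q) * φ k)
  dbl : ∀ k q, N k ≤ 2 * N q → φ k ≤ D * φ q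

/-- the auxiliary kernel -/
noncomputable def HH (φ w : K3 → ℝ) (k l : K3) : ℝ :=
  if N l ≤ N k ∧ N k ≤ 2 * N (k - l) then φ k * (N l * w l) * (w k * w (k - l)) else 0

theorem HH_nonneg {φ w : K3 → ℝ} (hφ : ∀ k, 0 ≤ φ k) (hw : ∀ k, 0 ≤ w k) (k l : K3) :
    0 ≤ HH φ w k l := by
  unfold HH
  split_ifs
  · have := hφ k
    have := hw l
    have := hw k
    have := hw (k - l)
    positivity
  · exact le_rfl

/-- The half of the pointwise estimate. -/
theorem half_le {a D : ℝ} {φ w : K3 → ℝ} (hφ : Wt a D φ) (hw : ∀ k, 0 ≤ w k)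
    {k q : K3} (h : N q ≤ N k) :
    |φ k - φ q| * min (N k : ℝ) (N q) * (w (k - q) * w q * w k)
      ≤ 2 * a * (HH φ w k (k - q) + HH φ w k q) := by
  have ha := hφ.a0
  have h1 := HH_nonneg hφ.nonneg hw k (k - q)
  have h2 := HH_nonneg hφ.nonneg hw k q
  have hk := hw k
  have hq := hw q
  have hp := hw (k - q)
  have hφk := hφ.nonneg k
  have hlip := hφ.lip k q h
  have hqR : (N q : ℝ) ≤ N k := by exact_mod_cast h
  rw [min_eq_right hqR]
  rcases Nat.eq_zero_or_pos (N k) with h0 | h0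
  · have : N q = 0 := by omega
    rw [this]
    simp only [Nat.cast_zero, mul_zero, zero_mul]
    positivity
  have hkR : (0 : ℝ) < N k := by exact_mod_cast h0
  rcases le_or_gt (N (k - q)) (N q) with hc | hc
  · -- `p` is the smallest
    have e : HH φ w k (k - q) = φ k * (N (k - q) * w (k - q)) * (w k * w q) := by
      unfold HH
      have h3 := N_le_sub k q
      have e1 : k - (k - q) = q := by abel
      rw [e1, if_pos ⟨by omega, by omega⟩]
    have key : |φ k - φ q| * N q ≤ a * (N (k - q) * φ k) :=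
      (mul_le_mul_of_nonneg_left hqR (abs_nonneg _)).trans hlip
    calc |φ k - φ q| * N q * (w (k - q) * w q * w k)
        ≤ a * (N (k - q) * φ k) * (w (k - q) * w q * w k) := by gcongr
      _ = a * HH φ w k (k - q) := by rw [e]; ring
      _ ≤ 2 * a * (HH φ w k (k - q) + HH φ w k q) := by nlinarith
  · -- `q` is the smallest
    have h3 := N_le_sub k q
    have h4 := N_sub_le k q
    have e : HH φ w k q = φ k * (N q * w q) * (w k * w (k - q)) := by
      unfold HH
      rw [if_pos ⟨h, by omega⟩]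
    have h5 : (N (k - q) : ℝ) ≤ 2 * N k := by
      have : N (k - q) ≤ 2 * N k := by omega
      exact_mod_cast this
    have key : |φ k - φ q| ≤ 2 * a * φ k := by
      have h6 : |φ k - φ q| * N k ≤ (2 * a * φ k) * N k := by
        refine hlip.trans ?_
        calc a * (N (k - q) * φ k) ≤ a * (2 * N k * φ k) := by gcongr
          _ = _ := by ring
      exact le_of_mul_le_mul_right h6 hkR
    calc |φ k - φ q| * N q * (w (k - q) * w q * w k)
        ≤ 2 * a * φ k * N q * (w (k - q) * w q * w k) := by gcongr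
      _ = 2 * a * HH φ w k q := by rw [e]; ring
      _ ≤ 2 * a * (HH φ w k (k - q) + HH φ w k q) := by nlinarith

/-- The pointwise estimate. -/
theorem point_le {a D : ℝ} {φ w : K3 → ℝ} (hφ : Wt a D φ) (hw : ∀ k, 0 ≤ w k)
    (he : ∀ k, w (-k) = w k) (k q : K3) :
    |φ k - φ q| * min (N k : ℝ) (N q) * (w (k - q) * w q * w k)
      ≤ 2 * a * (HH φ w k (k - q) + HH φ w k q + HH φ w q (q - k) + HH φ w q k) := by
  have ha := hφ.a0
  have h1 := HH_nonneg hφ.nonneg hw k (k - q)
  have h2 := HH_nonneg hφ.nonneg hw k q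
  have h3 := HH_nonneg hφ.nonneg hw q (q - k)
  have h4 := HH_nonneg hφ.nonneg hw q k
  rcases le_total (N q) (N k) with h | h
  · have := half_le hφ hw h
    nlinarith
  · have h5 := half_le hφ hw h
    have e1 : |φ q - φ k| = |φ k - φ q| := abs_sub_comm _ _
    have e2 : w (q - k) = w (k - q) := by rw [← he (k - q), neg_sub]
    rw [e1, e2, min_comm] at h5
    have e3 : w (k - q) * w k * w q = w (k - q) * w q * w k := by ring
    rw [e3] at h5
    nlinarith

/-- `∑ φ |w|² S` -/
noncomputable def QQ (φ w : K3 → ℝ) : ℝ≥0∞ :=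
  ∑' k, ENNReal.ofReal (φ k * w k ^ 2 * Sn w (2 * N k))

theorem tsum_box (w : K3 → ℝ) (hw : ∀ k, 0 ≤ w k) (R : ℕ) :
    ∑' l, (if N l ≤ R then ENNReal.ofReal (N l * w l) else 0) = ENNReal.ofReal (Sn w R) := by
  rw [tsum_eq_sum (s := box R)]
  · unfold Sn
    rw [ENNReal.ofReal_sum_of_nonneg fun l _ => mul_nonneg (Nat.cast_nonneg _) (hw l)]
    refine Finset.sum_congr rfl fun l hl => ?_
    rw [if_pos (mem_box.1 hl)]
  · intro l hl
    rw [mem_box] at hl
    rw [if_neg hl]

/-- The sum over all pairs of the auxiliary kernel. -/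
theorem tsum_HH {a D : ℝ} {φ w : K3 → ℝ} (hφ : Wt a D φ) (hw : ∀ k, 0 ≤ w k) :
    ∑' k, ∑' l, ENNReal.ofReal (HH φ w k l) ≤ ENNReal.ofReal (1 + D) * QQ φ w := by
  have hD := hφ.D0
  -- pointwise
  have hpt : ∀ k l, ENNReal.ofReal (HH φ w k l) ≤
      (ENNReal.ofReal (φ k * w k ^ 2) * if N l ≤ 2 * N k then ENNReal.ofReal (N l * w l) else 0) +
      (ENNReal.ofReal (D * (φ (k - l) * w (k - l) ^ 2)) *
        if N l ≤ 2 * N (k - l) then ENNReal.ofReal (N l * w l) else 0) := by
    intro k l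
    have hφk := hφ.nonneg k
    have hφl := hφ.nonneg (k - l)
    have hk := hw k
    have hl := hw l
    have hp := hw (k - l)
    unfold HH
    split_ifs with h1 h2 h3 h3
    · rw [← ENNReal.ofReal_mul (by positivity), ← ENNReal.ofReal_mul (by positivity),
        ← ENNReal.ofReal_add (by positivity) (by positivity)]
      apply ENNReal.ofReal_le_ofReal
      have h4 := hφ.dbl k (k - l) h1.2
      have h5 : w k * w (k - l) ≤ w k ^ 2 + w (k - l) ^ 2 := by nlinarith [sq_nonneg (w k - w (k - l))]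
      calc φ k * (N l * w l) * (w k * w (k - l))
          ≤ φ k * (N l * w l) * (w k ^ 2 + w (k - l) ^ 2) := by gcongr
        _ = φ k * w k ^ 2 * (N l * w l) + φ k * (w (k - l) ^ 2 * (N l * w l)) := by ring
        _ ≤ φ k * w k ^ 2 * (N l * w l) + D * φ (k - l) * (w (k - l) ^ 2 * (N l * w l)) := by gcongr
        _ = _ := by ring
    · exact absurd (h1.1.trans h1.2) h3
    · exact absurd (h1.1.trans (by omega)) h2
    · exact absurd (h1.1.trans (by omega)) h2
    all_goals simp
  calc ∑' k, ∑' l, ENNReal.ofReal (HH φ w k l)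
      ≤ ∑' k, ∑' l, ((ENNReal.ofReal (φ k * w k ^ 2) *
          if N l ≤ 2 * N k then ENNReal.ofReal (N l * w l) else 0) +
        (ENNReal.ofReal (D * (φ (k - l) * w (k - l) ^ 2)) *
          if N l ≤ 2 * N (k - l) then ENNReal.ofReal (N l * w l) else 0)) :=
        ENNReal.tsum_le_tsum fun k => ENNReal.tsum_le_tsum fun l => hpt k l
    _ = (∑' k, ∑' l, (ENNReal.ofReal (φ k * w k ^ 2) *
          if N l ≤ 2 * N k then ENNReal.ofReal (N l * w l) else 0)) +
        ∑' k, ∑' l, (ENNReal.ofReal (D * (φ (k - l) * w (k - l) ^ 2)) *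
          if N l ≤ 2 * N (k - l) then ENNReal.ofReal (N l * w l) else 0) := by
        rw [← ENNReal.tsum_add]
        refine tsum_congr fun k => ?_
        rw [ENNReal.tsum_add]
    _ = QQ φ w + ENNReal.ofReal D * QQ φ w := by
        congr 1
        · unfold QQ
          refine tsum_congr fun k => ?_
          rw [ENNReal.tsum_mul_left, tsum_box w hw, ← ENNReal.ofReal_mul]
          have := hφ.nonneg k
          positivity
        · rw [ENNReal.tsum_comm]
          have e1 : ∀ l, ∑' k, (ENNReal.ofReal (D * (φ (k - l) * w (k - l) ^ 2)) *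
              if N l ≤ 2 * N (k - l) then ENNReal.ofReal (N l * w l) else 0) =
              ∑' k, (ENNReal.ofReal (D * (φ k * w k ^ 2)) *
              if N l ≤ 2 * N k then ENNReal.ofReal (N l * w l) else 0) := by
            intro l
            exact (Equiv.subRight l).tsum_eq (fun k => ENNReal.ofReal (D * (φ k * w k ^ 2)) *
              if N l ≤ 2 * N k then ENNReal.ofReal (N l * w l) else 0)
          simp_rw [e1]
          rw [ENNReal.tsum_comm]
          unfold QQ
          rw [← ENNReal.tsum_mul_left]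
          refine tsum_congr fun k => ?_
          rw [ENNReal.tsum_mul_left, tsum_box w hw, ENNReal.ofReal_mul hD, mul_assoc,
            ← ENNReal.ofReal_mul]
          have := hφ.nonneg k
          positivity
    _ = ENNReal.ofReal (1 + D) * QQ φ w := by
        rw [ENNReal.ofReal_add zero_le_one hD, ENNReal.ofReal_one, add_mul, one_mul]

/-- The main estimate. -/
theorem core {a D : ℝ} {φ w : K3 → ℝ} (hφ : Wt a D φ) (hw : ∀ k, 0 ≤ w k)
    (he : ∀ k, w (-k) = w k) :
    ∑' p : K3 × K3, ENNReal.ofReal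
      (|φ p.1 - φ p.2| * min (N p.1 : ℝ) (N p.2) * (w (p.1 - p.2) * w p.2 * w p.1))
      ≤ ENNReal.ofReal (8 * a * (1 + D)) * QQ φ w := by
  have ha := hφ.a0
  have hD := hφ.D0
  have hH : ∀ k l, 0 ≤ HH φ w k l := fun k l => HH_nonneg hφ.nonneg hw k l
  set Z : ℝ≥0∞ := ∑' k, ∑' l, ENNReal.ofReal (HH φ w k l) with hZ
  have z1 : ∑' k, ∑' q, ENNReal.ofReal (HH φ w k (k - q)) = Z := by
    rw [hZ]
    refine tsum_congr fun k => ?_
    exact (Equiv.subLeft k).tsum_eq (fun l => ENNReal.ofReal (HH φ w k l))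
  have z3 : ∑' k, ∑' q, ENNReal.ofReal (HH φ w q (q - k)) = Z := by
    rw [ENNReal.tsum_comm]
    exact z1
  have z4 : ∑' k, ∑' q, ENNReal.ofReal (HH φ w q k) = Z := ENNReal.tsum_comm
  calc ∑' p : K3 × K3, ENNReal.ofReal
          (|φ p.1 - φ p.2| * min (N p.1 : ℝ) (N p.2) * (w (p.1 - p.2) * w p.2 * w p.1))
      ≤ ∑' p : K3 × K3, ENNReal.ofReal (2 * a) * (ENNReal.ofReal (HH φ w p.1 (p.1 - p.2))
        + ENNReal.ofReal (HH φ w p.1 p.2) + ENNReal.ofReal (HH φ w p.2 (p.2 - p.1))
        + ENNReal.ofReal (HH φ w p.2 p.1)) := by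
        refine ENNReal.tsum_le_tsum fun p => ?_
        rw [← ENNReal.ofReal_add (hH _ _) (hH _ _), ← ENNReal.ofReal_add
          (add_nonneg (hH _ _) (hH _ _)) (hH _ _), ← ENNReal.ofReal_add
          (add_nonneg (add_nonneg (hH _ _) (hH _ _)) (hH _ _)) (hH _ _),
          ← ENNReal.ofReal_mul (by positivity)]
        exact ENNReal.ofReal_le_ofReal (point_le hφ hw he p.1 p.2)
    _ = ENNReal.ofReal (2 * a) * (4 * Z) := by
        rw [ENNReal.tsum_mul_left, ENNReal.tsum_prod (f := fun k q => ENNReal.ofReal (HH φ w k (k - q))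
        + ENNReal.ofReal (HH φ w k q) + ENNReal.ofReal (HH φ w q (q - k))
        + ENNReal.ofReal (HH φ w q k))]
        congr 1
        simp_rw [ENNReal.tsum_add]
        rw [z1, z3, z4]
        ring
    _ ≤ ENNReal.ofReal (2 * a) * (4 * (ENNReal.ofReal (1 + D) * QQ φ w)) := by
        gcongr
        exact tsum_HH hφ hw
    _ = ENNReal.ofReal (8 * a * (1 + D)) * QQ φ w := by
        have e : 8 * a * (1 + D) = (2 * a) * (4 * (1 + D)) := by ring
        have h2a : 0 ≤ 2 * a := by positivity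
        rw [e, ENNReal.ofReal_mul h2a, ENNReal.ofReal_mul (show (0 : ℝ) ≤ 4 by norm_num)]
        have : ENNReal.ofReal 4 = 4 := by norm_num
        rw [this]
        ring

end Pool.Agent.Q63.Win
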