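import Pool.Agent.H459R3.NS.Defs

/-!
Windows of frequencies.
-/

namespace Pool.Agent.Q63.Win

open H459R3.NS

/-- Euclidean length of a frequency. -/
noncomputable def len (k : K3) : ℝ := Real.sqrt (∑ j, (k j : ℝ) ^ 2)

/-- `∑ |k|^(2 s) |v̂(k)|²` over the frequencies `k` with `K^θ < |k| ≤ K`. -/
noncomputable def window (s θ K : ℝ) (v : V → V) : ℝ :=
  ∑' k : K3, if K ^ θ < len k ∧ len k ≤ K then
    len k ^ (2 * s) * ∑ i, ‖fr (fun y => v y i) k‖ ^ 2 else 0

end Pool.Agent.Q63.Win
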