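import Pool.Agent.Q63.Win.Asy
import Pool.Agent.Q63.Win.FromSol
import Pool.Agent.Q63.Win.Defs

/-!
Windows of frequencies and blow-up.
-/

open MeasureTheory Set Filter Topology
open scoped ENNReal

namespace Pool.Agent.Q63.Win

open H459R3.NS

theorem N_le_len (k : K3) : (N k : ℝ) ≤ len k := Real.le_sqrt_of_sq_le (N_sq_le k)

theorem len_le (k : K3) : len k ≤ 2 * N k := by
  refine Real.sqrt_le_iff.2 ⟨by positivity, ?_⟩
  calc ∑ j, (k j : ℝ) ^ 2 ≤ ∑ _j : Fin 3, (N k : ℝ) ^ 2 := by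
        refine Finset.sum_le_sum fun j _ => ?_
        have := abs_coord_le k j
        rw [← sq_abs (k j : ℝ)]
        gcongr
    _ = 3 * (N k : ℝ) ^ 2 := by simp
    _ ≤ (2 * N k) ^ 2 := by nlinarith [sq_nonneg (N k : ℝ)]

theorem window_term_nonneg (s θ K : ℝ) (v : V → V) (k : K3) :
    0 ≤ (if K ^ θ < len k ∧ len k ≤ K then
    len k ^ (2 * s) * ∑ i, ‖fr (fun y => v y i) k‖ ^ 2 else 0) := by
  have : 0 ≤ len k := Real.sqrt_nonneg _
  split_ifs
  · have : 0 ≤ ∑ i, ‖fr (fun y => v y i) k‖ ^ 2 := Finset.sum_nonneg fun _ _ => by positivity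
    positivity
  · exact le_rfl

theorem window_summable (s θ K : ℝ) (v : V → V) : Summable fun k : K3 =>
    (if K ^ θ < len k ∧ len k ≤ K then
    len k ^ (2 * s) * ∑ i, ‖fr (fun y => v y i) k‖ ^ 2 else 0) := by
  refine summable_of_ne_finset_zero (s := box ⌊K⌋₊) fun k hk => ?_
  rw [if_neg]
  rintro ⟨-, h⟩
  rw [mem_box, not_le] at hk
  have h1 : (N k : ℝ) ≤ K := (N_le_len k).trans h
  have h2 : N k ≤ ⌊K⌋₊ := Nat.le_floor h1
  omega

theorem window_nonneg (s θ K : ℝ) (v : V → V) : 0 ≤ window s θ K v :=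
  tsum_nonneg fun k => window_term_nonneg s θ K v k

/-- comparison of the two kinds of windows -/
theorem winS_le_window {s θ K : ℝ} (hs : 0 ≤ s) {κ K' : ℕ}
    (hlo : ∀ n : ℕ, κ < n → K ^ θ < n) (hhi : 2 * (K' : ℝ) ≤ K) (v : V → V) :
    winS s κ K' (amp (cof v)) ≤ window s θ K v := by
  unfold winS window
  refine le_trans ?_ ((window_summable s θ K v).sum_le_tsum (box K' \ box κ)
    fun k _ => window_term_nonneg s θ K v k)
  refine Finset.sum_le_sum fun l hl => ?_
  rw [Finset.mem_sdiff, mem_box, mem_box, not_le] at hl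
  have a1 := N_le_len l
  have a2 := len_le l
  have a3 : K ^ θ < len l := (hlo _ hl.2).trans_le a1
  have a4 : len l ≤ K := by
    have : (N l : ℝ) ≤ K' := by exact_mod_cast hl.1
    linarith
  rw [if_pos ⟨a3, a4⟩, amp_sq]
  have : 0 ≤ ∑ i, ‖cof v l i‖ ^ 2 := Finset.sum_nonneg fun _ _ => by positivity
  unfold cof at this ⊢
  gcongr

/-- Young's inequality in the form which is needed. -/
theorem young2 {γ x b ν : ℝ} (hγ0 : 0 ≤ γ) (hγ : γ < 2) (hx : 0 ≤ x) (hb : 0 ≤ b) (hν : 0 < ν) :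
    b * x ^ γ ≤ ν * x ^ 2 + ν ^ (-(γ / (2 - γ))) * b ^ (2 / (2 - γ)) := by
  have h2γ : 0 < 2 - γ := by linarith
  rcases le_or_gt (b * x ^ γ) (ν * x ^ 2) with h | h
  · have : 0 ≤ ν ^ (-(γ / (2 - γ))) * b ^ (2 / (2 - γ)) := by positivity
    linarith
  · have hbpos : 0 < b := by
      rcases hb.eq_or_lt with h0 | h0
      · rw [← h0, zero_mul] at h
        have : 0 ≤ ν * x ^ 2 := by positivity
        linarith
      · exact h0
    have hν2 : 0 ≤ ν * x ^ 2 := by positivity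
    rcases hx.eq_or_lt with h0 | hxpos
    · rw [← h0] at h ⊢
      have h3 : (0 : ℝ) ^ γ ≤ 1 := by
        rcases hγ0.eq_or_lt with h4 | h4
        · rw [← h4]; simp
        · rw [Real.zero_rpow h4.ne']; norm_num
      rcases hγ0.eq_or_lt with h4 | h4
      · rw [← h4]
        simp
      · rw [Real.zero_rpow h4.ne']
        have : 0 ≤ ν ^ (-(γ / (2 - γ))) * b ^ (2 / (2 - γ)) := by positivity
        simp only [mul_zero]
        nlinarith
    -- `x ^ (2 - γ) < b / ν`
    have h5 : x ^ (2 - γ) ≤ b / ν := by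
      rw [le_div_iff₀ hν]
      have h6 : ν * x ^ 2 = (x ^ (2 - γ) * ν) * x ^ γ := by
        have : x ^ 2 = x ^ (2 - γ) * x ^ γ := by
          rw [← Real.rpow_add hxpos, ← Real.rpow_natCast x 2]
          congr 1
          push_cast
          ring
        rw [this]
        ring
      rw [h6] at h
      exact (lt_of_mul_lt_mul_right h (by positivity)).le
    have h7 : x ^ γ ≤ (b / ν) ^ (γ / (2 - γ)) := by
      calc x ^ γ = (x ^ (2 - γ)) ^ (γ / (2 - γ)) := by
            rw [← Real.rpow_mul hx]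
            congr 1
            field_simp
        _ ≤ (b / ν) ^ (γ / (2 - γ)) := by
            apply Real.rpow_le_rpow (by positivity) h5
            positivity
    have h8 : b * (b / ν) ^ (γ / (2 - γ)) = ν ^ (-(γ / (2 - γ))) * b ^ (2 / (2 - γ)) := by
      rw [Real.div_rpow hbpos.le hν.le, Real.rpow_neg hν.le]
      have : b ^ (2 / (2 - γ)) = b * b ^ (γ / (2 - γ)) := by
        rw [← Real.rpow_one_add' hbpos.le]
        · congr 1
          field_simp
          ring
        · positivity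
      rw [this]
      field_simp
    calc b * x ^ γ ≤ b * (b / ν) ^ (γ / (2 - γ)) := by gcongr
      _ = ν ^ (-(γ / (2 - γ))) * b ^ (2 / (2 - γ)) := h8
      _ ≤ _ := by linarith

theorem FSol.winS_continuousOn {m : K3 → ℝ} {T : ℝ} {c : ℝ → Fam} (h : FSol m T c) (s : ℝ)
    (κ K : ℕ) : ContinuousOn (fun t => winS s κ K (amp (c t))) (Ioo 0 T) := by
  unfold winS
  refine continuousOn_finsetSum _ fun l _ => ?_
  refine continuousOn_const.mul fun t ht => ?_
  exact (h.esq t ht l).continuousAt.continuousWithinAt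

/-- bounded fourth moment implies bounded velocity -/
theorem bounded_of_XX {ν T : ℝ} {u : ℝ → V → V} {p : ℝ → V → ℝ} (h : IsSol ν T u p) (hν : 0 < ν)
    {a : ℝ} (ha : 0 < a) (haT : a < T) {C : ℝ}
    (hC : ∀ t ∈ Ico a T, XX (fun k => (N k : ℝ) ^ 4) (amp (cof (u t))) ≤ C) :
    ∃ C, ∀ t ∈ Ico 0 T, ∀ x i, |u t x i| ≤ C := by
  have hf := fsol_of_isSol h
  have hpal : ∀ t ∈ Ico a T, palin (u t) ≤ (4 * Real.pi ^ 2) ^ 2 * 9 * C := by
    intro t ht
    have hI : t ∈ Ico 0 T := ⟨ha.le.trans ht.1, ht.2⟩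
    have hI' : t ∈ Ioo 0 T := ⟨ha.trans_le ht.1, ht.2⟩
    have hR := (hf.rapV hI').rapR
    set v : Fin 3 → V → ℝ := fun i y => u t y i with hv
    have hsp : ∀ i, SP (v i) := fun i => h.sp hI i
    have e1 : palin (u t) = ∑ i, ∑' k, ‖fr (lap (v i)) k‖ ^ 2 := by
      unfold palin
      refine Finset.sum_congr rfl fun i _ => ?_
      rw [← n2_fr (hsp i).lap, n2_sq]
    have e2 : ∀ i k, ‖fr (lap (v i)) k‖ ^ 2 ≤ (4 * Real.pi ^ 2) ^ 2 * 9 *
        ((N k : ℝ) ^ 4 * ‖cof (u t) k i‖ ^ 2) := by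
      intro i k
      have e3 : fr (lap (v i)) k = ((-(4 * Real.pi ^ 2 * ∑ j, (k j : ℝ) ^ 2) : ℝ) : ℂ)
          * fr (v i) k := by
        have : lap (v i) = fun x => ∑ j, pd j (pd j (v i)) x := rfl
        rw [this, fr_sum (fun j _ => ((hsp i).pd j).pd j)]
        simp_rw [fr_pd ((hsp i).pd _), D, fr_pd (hsp i), D]
        push_cast
        rw [Finset.mul_sum, ← Finset.sum_neg_distrib, Finset.sum_mul]
        refine Finset.sum_congr rfl fun j _ => ?_
        have hI2 : Complex.I ^ 2 = -1 := Complex.I_sq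
        linear_combination (4 * (Real.pi : ℂ) ^ 2 * (k j : ℂ) ^ 2 * fr (v i) k) * hI2
      have e4 : ∑ j, (k j : ℝ) ^ 2 ≤ 3 * (N k : ℝ) ^ 2 := by
        calc ∑ j, (k j : ℝ) ^ 2 ≤ ∑ _j : Fin 3, (N k : ℝ) ^ 2 := by
              refine Finset.sum_le_sum fun j _ => ?_
              have := abs_coord_le k j
              rw [← sq_abs (k j : ℝ)]
              gcongr
          _ = 3 * (N k : ℝ) ^ 2 := by simp
      have e5 : 0 ≤ ∑ j, (k j : ℝ) ^ 2 := Finset.sum_nonneg fun _ _ => sq_nonneg _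
      rw [e3, norm_mul, mul_pow, Complex.norm_real, Real.norm_eq_abs, abs_neg,
        abs_of_nonneg (by positivity)]
      calc (4 * Real.pi ^ 2 * ∑ j, (k j : ℝ) ^ 2) ^ 2 * ‖fr (v i) k‖ ^ 2
          ≤ (4 * Real.pi ^ 2 * (3 * (N k : ℝ) ^ 2)) ^ 2 * ‖fr (v i) k‖ ^ 2 := by gcongr
        _ = _ := by
          unfold cof
          ring
    have hsumi : ∀ i, Summable fun k => (N k : ℝ) ^ 4 * ‖cof (u t) k i‖ ^ 2 := by
      intro i
      refine Summable.of_nonneg_of_le (fun k => by positivity) (fun k => ?_)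
        (XX_summable (pol_pow 4) hR)
      have := norm_le_amp (cof (u t)) k i
      gcongr
    have hsumi' : ∀ i, Summable fun k => ‖fr (lap (v i)) k‖ ^ 2 := fun i =>
      summable_sq (rap_fr (hsp i).lap).summable
    have e6 : ∑ i, ∑' k, ‖fr (lap (v i)) k‖ ^ 2 ≤ ∑ i, (4 * Real.pi ^ 2) ^ 2 * 9 *
        ∑' k, (N k : ℝ) ^ 4 * ‖cof (u t) k i‖ ^ 2 := by
      refine Finset.sum_le_sum fun i _ => ?_
      rw [← tsum_mul_left]
      exact (hsumi' i).tsum_le_tsum (e2 i) ((hsumi i).mul_left _)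
    rw [e1]
    refine e6.trans ?_
    rw [← Finset.mul_sum, ← Summable.tsum_finsetSum fun i _ => hsumi i]
    have e7 : ∑' k, ∑ i, (N k : ℝ) ^ 4 * ‖cof (u t) k i‖ ^ 2
        = XX (fun k => (N k : ℝ) ^ 4) (amp (cof (u t))) := by
      unfold XX
      refine tsum_congr fun k => ?_
      rw [amp_sq, Finset.mul_sum]
    rw [e7]
    have := hC t ht
    gcongr
  have hcont : ContinuousOn (fun t => palin (u t)) (Icc 0 a) :=
    h.palin_continuousOn.mono fun t ht => ⟨ht.1, ht.2.trans_lt haT⟩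
  obtain ⟨C', hC'⟩ := (isCompact_Icc (a := (0 : ℝ)) (b := a)).exists_bound_of_continuousOn hcont
  set B := max C' ((4 * Real.pi ^ 2) ^ 2 * 9 * C) with hB
  have hall : ∀ t ∈ Ico 0 T, palin (u t) ≤ B := by
    intro t ht
    rcases le_or_gt t a with h1 | h1
    · exact ((le_abs_self _).trans (hC' t ⟨ht.1, h1⟩)).trans (le_max_left _ _)
    · exact (hpal t ⟨h1.le, ht.2⟩).trans (le_max_right _ _)
  have hB0 : 0 ≤ B := (palin_nonneg _).trans (hall a ⟨ha.le, haT⟩)
  refine h.bounded_of_int_palin hν (K := B * T) fun t ht => ?_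
  have hT : 0 < T := ha.trans haT
  have hint : IntervalIntegrable (fun s => palin (u s)) volume 0 t := by
    refine ContinuousOn.intervalIntegrable ?_
    rw [uIcc_of_le ht.1]
    exact h.palin_continuousOn.mono fun r hr => ⟨hr.1, hr.2.trans_lt ht.2⟩
  calc ∫ s in (0 : ℝ)..t, palin (u s) ≤ ∫ _s in (0 : ℝ)..t, B :=
        intervalIntegral.integral_mono_on ht.1 hint intervalIntegrable_const
          fun s hs => hall s ⟨hs.1, hs.2.trans_lt ht.2⟩
    _ = t * B := by simp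
    _ ≤ B * T := by
        rw [mul_comm]
        have := ht.2.le
        gcongr

end Pool.Agent.Q63.Win
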