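import Pool.Agent.Q63.Win.Alg

/-!
Weights.
-/

open Set Filter Topology
open scoped ENNReal

namespace Pool.Agent.Q63.Win

open H459R3.NS

/-- a weight defined by a function of the sup norm -/
theorem wt_of {a D : ℝ} {f : ℕ → ℝ} (ha : 0 ≤ a) (hD : 0 ≤ D) (h0 : ∀ n, 0 ≤ f n)
    (hmono : Monotone f) (hlip : ∀ m n : ℕ, m ≤ n → (f n - f m) * n ≤ a * (((n : ℝ) - m) * f n))
    (hdbl : ∀ m, f (2 * m) ≤ D * f m) : Wt a D fun k => f (N k) where
  a0 := ha
  D0 := hD
  nonneg k := h0 _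
  lip k q h := by
    rw [abs_of_nonneg (sub_nonneg.2 (hmono h))]
    refine (hlip _ _ h).trans ?_
    have h1 : ((N k : ℝ) - N q) ≤ N (k - q) := by
      have : N k ≤ N (k - q) + N q := N_le_sub k q
      have : (N k : ℝ) ≤ N (k - q) + N q := by exact_mod_cast this
      linarith
    have := h0 (N k)
    gcongr
  dbl k q h := (hmono h).trans (hdbl _)

theorem pow_lip (M : ℕ) {x y : ℝ} (hx : 0 ≤ x) (hxy : x ≤ y) :
    (y ^ M - x ^ M) * y ≤ M * ((y - x) * y ^ M) := by
  induction M with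
  | zero => simp
  | succ M ih =>
    have hy : 0 ≤ y := hx.trans hxy
    have h1 : x ^ M ≤ y ^ M := pow_le_pow_left₀ hx hxy M
    have h2 : (y ^ (M + 1) - x ^ (M + 1)) * y = y * ((y ^ M - x ^ M) * y) + x ^ M * (y - x) * y := by
      ring
    have h3 : x ^ M * (y - x) * y ≤ y ^ M * (y - x) * y := by
      have : 0 ≤ y - x := by linarith
      gcongr
    have h4 : y * ((y ^ M - x ^ M) * y) ≤ y * (M * ((y - x) * y ^ M)) :=
      mul_le_mul_of_nonneg_left ih hy
    rw [h2]
    push_cast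
    calc y * ((y ^ M - x ^ M) * y) + x ^ M * (y - x) * y
        ≤ y * (M * ((y - x) * y ^ M)) + y ^ M * (y - x) * y := add_le_add h4 h3
      _ = ((M : ℝ) + 1) * ((y - x) * y ^ (M + 1)) := by ring

/-- the power weight -/
theorem wt_pow (M : ℕ) : Wt M (2 ^ M) fun k => (N k : ℝ) ^ M := by
  refine wt_of (f := fun n => (n : ℝ) ^ M) (Nat.cast_nonneg _) (by positivity)
    (fun n => by positivity) (fun m n h => ?_) (fun m n h => ?_) (fun m => ?_)
  · have : (m : ℝ) ≤ n := by exact_mod_cast h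
    show (m : ℝ) ^ M ≤ (n : ℝ) ^ M
    gcongr
  · exact pow_lip M (Nat.cast_nonneg _) (by exact_mod_cast h)
  · push_cast
    rw [mul_pow]

/-- the weight `K (|k| / K)^M` for `|k| ≤ K` and `|k|` for `|k| > K` -/
noncomputable def ff (M K n : ℕ) : ℝ := if n ≤ K then (K : ℝ) * ((n : ℝ) / K) ^ M else n

noncomputable def phi (M K : ℕ) (k : K3) : ℝ := ff M K (N k)

section

variable {M K : ℕ} (hM : 1 ≤ M) (hK : 1 ≤ K)

include hK in
theorem ff_nonneg (n : ℕ) : 0 ≤ ff M K n := by
  unfold ff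
  split_ifs <;> positivity

include hK in
omit hM in
theorem ff_K : ff M K K = K := by
  unfold ff
  have : (K : ℝ) ≠ 0 := by positivity
  rw [if_pos le_rfl, div_self this, one_pow, mul_one]

include hK in
omit hM in
theorem ff_ge {n : ℕ} (h : K ≤ n) : ff M K n = n := by
  rcases h.lt_or_eq with h | h
  · unfold ff
    rw [if_neg (by omega)]
  · rw [← h, ff_K hK]

include hM hK in
theorem ff_mono : Monotone (ff M K) := by
  intro m n h
  have hKR : (0 : ℝ) < K := by positivity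
  have hmn : (m : ℝ) ≤ n := by exact_mod_cast h
  rcases le_or_gt n K with h1 | h1
  · unfold ff
    rw [if_pos h1, if_pos (h.trans h1)]
    gcongr
  · rw [ff_ge hK h1.le]
    rcases le_or_gt m K with h2 | h2
    · unfold ff
      rw [if_pos h2]
      have h3 : ((m : ℝ) / K) ^ M ≤ 1 := by
        apply pow_le_one₀ (by positivity)
        rw [div_le_one hKR]
        exact_mod_cast h2
      have h4 : (K : ℝ) ≤ n := by exact_mod_cast h1.le
      nlinarith
    · rw [ff_ge hK h2.le]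
      exact hmn

include hM hK in
theorem ff_lip (m n : ℕ) (h : m ≤ n) :
    (ff M K n - ff M K m) * n ≤ M * (((n : ℝ) - m) * ff M K n) := by
  have hKR : (0 : ℝ) < K := by positivity
  have hmn : (m : ℝ) ≤ n := by exact_mod_cast h
  have hMR : (1 : ℝ) ≤ M := by exact_mod_cast hM
  have hn0 : (0 : ℝ) ≤ n := Nat.cast_nonneg n
  have hm0 : (0 : ℝ) ≤ m := Nat.cast_nonneg m
  rcases le_or_gt n K with h1 | h1
  · unfold ff
    rw [if_pos h1, if_pos (h.trans h1)]
    have h2 := pow_lip M (x := (m : ℝ) / K) (y := (n : ℝ) / K) (by positivity) (by gcongr)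
    have e1 : ((K : ℝ) * ((n : ℝ) / K) ^ M - K * ((m : ℝ) / K) ^ M) * n
        = (K * K) * ((((n : ℝ) / K) ^ M - ((m : ℝ) / K) ^ M) * ((n : ℝ) / K)) := by
      field_simp
    have e2 : (M : ℝ) * (((n : ℝ) - m) * (K * ((n : ℝ) / K) ^ M))
        = (K * K) * (M * (((n : ℝ) / K - (m : ℝ) / K) * ((n : ℝ) / K) ^ M)) := by
      field_simp
    rw [e1, e2]
    gcongr
  · rw [ff_ge hK h1.le]
    have hKn : (K : ℝ) ≤ n := by exact_mod_cast h1.le
    rcases le_or_gt m K with h2 | h2
    · have hmK : (m : ℝ) ≤ K := by exact_mod_cast h2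
      unfold ff
      rw [if_pos h2]
      -- `K - K (m/K)^M ≤ M (K - m)`
      have h3 := pow_lip M (x := (m : ℝ) / K) (y := 1) (by positivity)
        (by rw [div_le_one hKR]; exact hmK)
      rw [one_pow, mul_one, mul_one] at h3
      have h4 : (K : ℝ) - K * ((m : ℝ) / K) ^ M ≤ M * (K - m) := by
        have := mul_le_mul_of_nonneg_left h3 hKR.le
        calc (K : ℝ) - K * ((m : ℝ) / K) ^ M = K * (1 - ((m : ℝ) / K) ^ M) := by ring
          _ ≤ K * (M * (1 - (m : ℝ) / K)) := this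
          _ = M * (K - m) := by field_simp
      have h5 : (n : ℝ) - K * ((m : ℝ) / K) ^ M ≤ M * (n - m) := by nlinarith
      calc ((n : ℝ) - K * ((m : ℝ) / K) ^ M) * n ≤ M * (n - m) * n := by gcongr
        _ = _ := by ring
    · rw [ff_ge hK h2.le]
      have : 0 ≤ ((n : ℝ) - m) * n := mul_nonneg (by linarith) hn0
      nlinarith

include hM hK in
theorem ff_dbl (m : ℕ) : ff M K (2 * m) ≤ 2 ^ M * ff M K m := by
  have hKR : (0 : ℝ) < K := by positivity
  have hm0 : (0 : ℝ) ≤ m := Nat.cast_nonneg m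
  rcases le_or_gt (2 * m) K with h1 | h1
  · unfold ff
    rw [if_pos h1, if_pos (by omega)]
    push_cast
    rw [mul_div_assoc, mul_pow]
    exact le_of_eq (by ring)
  · rw [ff_ge hK h1.le]
    rcases le_or_gt m K with h2 | h2
    · unfold ff
      rw [if_pos h2]
      have h3 : (1 : ℝ) ≤ 2 * m / K := by
        rw [le_div_iff₀ hKR, one_mul]
        exact_mod_cast h1.le
      have h4 : 2 * (m : ℝ) / K ≤ (2 * m / K) ^ M := le_self_pow₀ h3 (by omega)
      calc ((2 * m : ℕ) : ℝ) = K * (2 * m / K) := by push_cast; field_simp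
        _ ≤ K * (2 * m / K) ^ M := by gcongr
        _ = 2 ^ M * (K * ((m : ℝ) / K) ^ M) := by
          rw [mul_div_assoc, mul_pow]
          ring
    · rw [ff_ge hK h2.le]
      push_cast
      have : (2 : ℝ) ≤ 2 ^ M := le_self_pow₀ (by norm_num) (by omega)
      gcongr

include hM hK in
/-- `φ ≤ K^(1-M) |k|^M` -/
theorem ff_le (n : ℕ) : ff M K n ≤ K * ((n : ℝ) / K) ^ M := by
  have hKR : (0 : ℝ) < K := by positivity
  rcases le_or_gt n K with h1 | h1
  · unfold ff
    rw [if_pos h1]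
  · rw [ff_ge hK h1.le]
    have h3 : (1 : ℝ) ≤ n / K := by
      rw [le_div_iff₀ hKR, one_mul]
      exact_mod_cast h1.le
    calc (n : ℝ) = K * (n / K) := by field_simp
      _ ≤ K * (n / K) ^ M := by
        gcongr
        exact le_self_pow₀ h3 (by omega)

include hM hK in
theorem wt_phi : Wt M (2 ^ M) (phi M K) :=
  wt_of (f := ff M K) (Nat.cast_nonneg _) (by positivity) (ff_nonneg hK) (ff_mono hM hK)
    (fun m n h => ff_lip hM hK m n h) (ff_dbl hM hK)

theorem pol_pow (M : ℕ) : Pol fun k => (N k : ℝ) ^ M :=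
  ⟨1, M, zero_le_one, fun k => by
    rw [abs_of_nonneg (by positivity), one_mul]
    exact pow_le_pow_left₀ (Nat.cast_nonneg _) (by linarith) M⟩

include hM hK in
theorem pol_phi : Pol (phi M K) := by
  refine ⟨K * (1 / K) ^ M, M, by positivity, fun k => ?_⟩
  unfold phi
  rw [abs_of_nonneg (ff_nonneg hK _)]
  refine (ff_le hM hK _).trans ?_
  rw [mul_assoc, ← mul_pow]
  gcongr
  rw [div_eq_mul_inv, one_div, mul_comm]
  gcongr
  linarith

theorem pol_mul {φ ψ : K3 → ℝ} (h : Pol φ) (h' : Pol ψ) : Pol fun k => φ k * ψ k := by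
  obtain ⟨C, d, hC, h⟩ := h
  obtain ⟨C', d', hC', h'⟩ := h'
  refine ⟨C * C', d + d', by positivity, fun k => ?_⟩
  rw [abs_mul, pow_add]
  calc |φ k| * |ψ k| ≤ (C * (1 + (N k : ℝ)) ^ d) * (C' * (1 + (N k : ℝ)) ^ d') :=
        mul_le_mul (h k) (h' k) (abs_nonneg _) (by positivity)
    _ = _ := by ring

end

end Pool.Agent.Q63.Win
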